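import Mathlib

set_option autoImplicit false

open MeasureTheory Filter Topology Set TopologicalSpace

namespace Pool.Agent.MP_9152e2_an.Pos

lemma mg {G : Type} [TopologicalSpace G] {s t : Set G} (h : IsMeagre s)
    (H : ∀ g, g ∈ t → g ∈ s) : IsMeagre t := h.mono H

section Baire

variable {G X : Type} [TopologicalSpace G] [MeasurableSpace G] [BorelSpace G]

lemma bp {C : Set G} (hC : MeasurableSet C) (h : ¬ IsMeagre C) :
    ∃ W : Set G, IsOpen W ∧ W.Nonempty ∧ IsMeagre (W \ C) := by
  obtain ⟨u, hu, e⟩ := hC.residualEq_isOpen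
  refine ⟨u, hu, ?_, ?_⟩
  · by_contra hne
    rw [not_nonempty_iff_eq_empty] at hne
    apply h
    subst hne
    show Cᶜ ∈ residual G
    filter_upwards [e] with x hx
    intro hxC
    exact (hx.mp hxC : x ∈ (∅ : Set G))
  · show (u \ C)ᶜ ∈ residual G
    filter_upwards [e] with x hx
    intro hxC
    exact hxC.2 (hx.mpr hxC.1)

omit [MeasurableSpace G] [BorelSpace G] in
lemma nm_inter [BaireSpace G] {C W W' : Set G} (hW' : IsOpen W') (hne : W'.Nonempty)
    (hs : W' ⊆ W) (h : IsMeagre (W \ C)) : ¬ IsMeagre (C ∩ W') := by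
  intro h2
  refine not_isMeagre_of_isOpen hW' hne ((h2.union h).mono ?_)
  intro x hx
  by_cases hc : x ∈ C
  · exact Or.inl ⟨hc, hx⟩
  · exact Or.inr ⟨hs hx, hc⟩

lemma meas_meagre [BaireSpace G] [SecondCountableTopology G] [MeasurableSpace X]
    {S : Set (G × X)} (hS : MeasurableSet S) :
    ∀ W : Set G, IsOpen W → MeasurableSet {x | IsMeagre ({g | (g, x) ∈ S} ∩ W)} := by
  rw [← generateFrom_prod] at hS
  induction S, hS using MeasurableSpace.generateFrom_induction with
  | hC t ht _ =>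
    obtain ⟨U, -, B, hB, rfl⟩ := ht
    intro W _
    by_cases hm : IsMeagre (U ∩ W)
    · convert MeasurableSet.univ
      ext x
      simp only [mem_ofPred_eq, mem_univ, iff_true]
      exact mg hm fun g hg => ⟨hg.1.1, hg.2⟩
    · have hB' : MeasurableSet B := hB
      convert hB'.compl
      ext x
      simp only [mem_ofPred_eq, mem_compl_iff]
      constructor
      · intro h hx
        exact hm (mg h fun g hg => ⟨⟨hg.1, hx⟩, hg.2⟩)
      · intro hx
        exact mg IsMeagre.empty fun g hg => hx hg.1.2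
  | empty =>
    intro W _
    convert MeasurableSet.univ
    ext x
    simp only [mem_ofPred_eq, mem_univ, iff_true]
    exact mg IsMeagre.empty fun g hg => hg.1
  | compl t ht ih =>
    intro W hW
    rw [generateFrom_prod] at ht
    have e : {x | IsMeagre ({g | (g, x) ∈ tᶜ} ∩ W)} =
        ⋂ W' ∈ {W' ∈ countableBasis G | W' ⊆ W}, {x | IsMeagre ({g | (g, x) ∈ t} ∩ W')}ᶜ := by
      ext x
      simp only [mem_ofPred_eq, mem_iInter, mem_compl_iff]
      constructor
      · rintro h W' ⟨hb, hs⟩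
        refine nm_inter (isOpen_of_mem_countableBasis hb) (nonempty_of_mem_countableBasis hb) hs
          (h.mono ?_)
        exact fun g hg => ⟨hg.2, hg.1⟩
      · intro h
        by_contra hn
        have hm : MeasurableSet ({g | (g, x) ∉ t} ∩ W) :=
          (measurable_prodMk_right ht).compl.inter hW.measurableSet
        obtain ⟨W0, ho, hne, hme⟩ := bp hm hn
        have h1 : (W0 ∩ W).Nonempty := by
          by_contra h0
          refine not_isMeagre_of_isOpen ho hne (mg hme fun g hg => ⟨hg, fun h2 => ?_⟩)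
          exact h0 ⟨g, hg, h2.2⟩
        obtain ⟨g0, hg0⟩ := h1
        obtain ⟨W', hb, -, hs⟩ :=
          (isBasis_countableBasis G).exists_subset_of_mem_open hg0 (ho.inter hW)
        refine h W' ⟨hb, fun g hg => (hs hg).2⟩ (hme.mono ?_)
        exact fun g hg => ⟨(hs hg.2).1, fun h2 => h2.1 hg.1⟩
    rw [e]
    refine MeasurableSet.biInter ((countable_countableBasis G).mono fun _ h => h.1) ?_
    exact fun W' h => (ih W' (isOpen_of_mem_countableBasis h.1)).compl
  | iUnion s hs ih =>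
    intro W hW
    have e : {x | IsMeagre ({g | (g, x) ∈ ⋃ i, s i} ∩ W)} =
        ⋂ i, {x | IsMeagre ({g | (g, x) ∈ s i} ∩ W)} := by
      ext x
      simp only [mem_ofPred_eq, mem_iInter]
      constructor
      · intro h i
        exact mg h fun g hg => ⟨mem_iUnion.2 ⟨i, hg.1⟩, hg.2⟩
      · intro h
        refine (isMeagre_iUnion h).mono fun g hg => ?_
        obtain ⟨i, hi⟩ := mem_iUnion.1 hg.1
        exact mem_iUnion.2 ⟨i, hi, hg.2⟩
    rw [e]
    exact MeasurableSet.iInter fun i => ih i W hW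

end Baire

/-- A countable separating family of pairs of Borel sets, uniformly stable under the action. -/
def Sep (G X : Type) [Group G] [TopologicalSpace G] [MeasurableSpace X] [MulAction G X] : Prop :=
  ∃ (ι : Type) (_ : Countable ι) (P Q : ι → Set X) (V : ι → Set G),
    (∀ i, MeasurableSet (P i) ∧ MeasurableSet (Q i) ∧ V i ∈ 𝓝 (1 : G) ∧
      ∀ v ∈ V i, ∀ x ∈ P i, v • x ∈ Q i) ∧ ∀ x y, x ≠ y → ∃ i, x ∈ P i ∧ y ∉ Q i

section Act

variable {G X : Type} [Group G] [TopologicalSpace G] [IsTopologicalGroup G] [MeasurableSpace G]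
  [BorelSpace G] [BaireSpace G] [SecondCountableTopology G] [MeasurableSpace X] [MulAction G X]

lemma sep_of [MeasurableSpace.CountablySeparated X]
    (hm : Measurable (fun p : G × X => p.1 • p.2)) : Sep G X := by
  obtain ⟨f, hf, hi⟩ := MeasurableSpace.measurable_injection_nat_bool_of_countablySeparated X
  let A : ℕ × Bool → Set X := fun p => {x | f x p.1 = p.2}
  have hA : ∀ p, MeasurableSet (A p) := fun p =>
    ((measurable_pi_apply p.1).comp hf) (measurableSet_singleton p.2)
  let D : ℕ × Bool → Set G → Set X := fun p W => {x | IsMeagre ({g : G | g • x ∈ A p} ∩ W)}ᶜ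
  have hD : ∀ p W, IsOpen W → MeasurableSet (D p W) := fun p W hW =>
    (meas_meagre (S := (fun p : G × X => p.1 • p.2) ⁻¹' A p) (hm (hA p)) W hW).compl
  let V : Set G → Set G → Set G := fun W' W => {v | ∀ w ∈ W', w * v⁻¹ ∈ W}
  have : Countable (countableBasis G) := (countable_countableBasis G).to_subtype
  refine ⟨{q : (ℕ × Bool) × countableBasis G × countableBasis G // V q.2.1 q.2.2 ∈ 𝓝 (1 : G)},
    inferInstance, fun q => D q.1.1 q.1.2.1, fun q => D q.1.1 q.1.2.2,
    fun q => V q.1.2.1 q.1.2.2, ?_, ?_⟩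
  · rintro ⟨⟨p, W', W⟩, hq⟩
    refine ⟨hD _ _ (isOpen_of_mem_countableBasis W'.2), hD _ _ (isOpen_of_mem_countableBasis W.2),
      hq, ?_⟩
    intro v hv x hx h
    apply hx
    have h' : IsMeagre ({g : G | g • v • x ∈ A p} ∩ W) := h
    have h2 := h'.preimage_of_isOpenMap (f := fun g : G => g * v⁻¹) (by fun_prop)
      (isOpenMap_mul_right v⁻¹)
    refine mg h2 fun g hg => ⟨?_, hv g hg.2⟩
    show (g * v⁻¹) • v • x ∈ A p
    rw [smul_smul, inv_mul_cancel_right]
    exact hg.1
  · intro x y hxy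
    let C : ℕ × Bool → Set G := fun p => {g | g • x ∈ A p ∧ g • y ∉ A p}
    have hC : ∀ p, MeasurableSet (C p) := fun p =>
      ((hm.comp measurable_prodMk_right) (hA p)).inter
        ((hm.comp measurable_prodMk_right) (hA p)).compl
    have hcov : (univ : Set G) ⊆ ⋃ p, C p := by
      intro g _
      have h1 : f (g • x) ≠ f (g • y) := fun h => hxy (MulAction.injective g (hi h))
      obtain ⟨n, hn⟩ := Function.ne_iff.1 h1
      exact mem_iUnion.2 ⟨(n, f (g • x) n), rfl, fun h => hn (Eq.symm h)⟩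
    obtain ⟨p, hp⟩ : ∃ p, ¬ IsMeagre (C p) := by
      by_contra h
      push Not at h
      exact not_isMeagre_of_isOpen isOpen_univ univ_nonempty ((isMeagre_iUnion h).mono hcov)
    obtain ⟨W0, ho, ⟨g0, hg0⟩, hme⟩ := bp (hC p) hp
    obtain ⟨W, hWb, hgW, hWs⟩ := (isBasis_countableBasis G).exists_subset_of_mem_open hg0 ho
    have hc : ContinuousAt (fun q : G × G => q.1 * q.2⁻¹) (g0, 1) := by fun_prop
    have h1 : (fun q : G × G => q.1 * q.2⁻¹) ⁻¹' W ∈ 𝓝 (g0, (1 : G)) :=
      hc.preimage_mem_nhds (by simpa using (isOpen_of_mem_countableBasis hWb).mem_nhds hgW)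
    obtain ⟨N1, hN1, N2, hN2, hN⟩ := mem_nhds_prod_iff.1 h1
    obtain ⟨W', hW'b, hgW', hW's⟩ := (isBasis_countableBasis G).mem_nhds_iff.1 hN1
    have hV : V W' W ∈ 𝓝 (1 : G) :=
      mem_of_superset hN2 fun v hv w hw => hN (mk_mem_prod (hW's hw) hv)
    have hsub : W' ⊆ W0 := fun w hw => hWs (by simpa using mem_of_mem_nhds hV w hw)
    refine ⟨⟨(p, ⟨W', hW'b⟩, ⟨W, hWb⟩), hV⟩, fun h => ?_, fun h => h ?_⟩
    · refine nm_inter (isOpen_of_mem_countableBasis hW'b) ⟨g0, hgW'⟩ hsub hme (IsMeagre.mono ?_ h)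
      exact fun g hg => ⟨hg.1.1, hg.2⟩
    · exact mg hme fun g hg => ⟨hWs hg.2, fun h2 => h2.2 hg.1⟩

end Act

end Pool.Agent.MP_9152e2_an.Pos
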