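import Mathlib
import Pool.Agent.MP_9152e2_an.Pos.A

set_option autoImplicit false

open MeasureTheory ProbabilityTheory Filter Topology Set TopologicalSpace

namespace Pool.Agent.MP_9152e2_an.Pos

section TV

variable {G X : Type} [Group G] [TopologicalSpace G] [IsTopologicalGroup G] [MeasurableSpace G]
  [BorelSpace G] [BaireSpace G] [MeasurableSpace X] [MulAction G X]

lemma pettis {C : Set G} (hC : MeasurableSet C) (h : ¬ IsMeagre C) :
    {u : G | ∃ a ∈ C, a * u ∈ C} ∈ 𝓝 (1 : G) := by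
  obtain ⟨W, ho, ⟨g0, hg0⟩, hme⟩ := bp hC h
  have h1 : (fun u : G => g0 * u) ⁻¹' W ∈ 𝓝 (1 : G) :=
    (ho.preimage (by fun_prop)).mem_nhds (by simpa using hg0)
  refine mem_of_superset h1 fun u hu => ?_
  have h2 := hme.preimage_of_isOpenMap (f := fun g : G => g * u) (by fun_prop)
    (isOpenMap_mul_right u)
  have ho2 : IsOpen (W ∩ (fun g : G => g * u) ⁻¹' W) := ho.inter (ho.preimage (by fun_prop))
  by_contra hn
  refine not_isMeagre_of_isOpen ho2 ⟨g0, hg0, hu⟩ (mg (hme.union h2) fun g hg => ?_)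
  by_cases hc : g ∈ C
  · exact Or.inr ⟨hg.2, fun h3 => hn ⟨g, hc, h3⟩⟩
  · exact Or.inl ⟨hg.1, hc⟩

lemma tv [MeasurableSpace.CountablyGenerated X] (hm : Measurable (fun p : G × X => p.1 • p.2))
    (μ : Measure X) [IsFiniteMeasure μ] (hq : ∀ g : G, μ.map (fun x => g • x) ≪ μ)
    {ε : ℝ} (hε : 0 < ε) : ∃ U ∈ 𝓝 (1 : G), ∀ u ∈ U, ∀ A : Set X, MeasurableSet A →
      μ.real A ≤ μ.real ((fun x => u • x) ⁻¹' A) + ε := by
  have hg : ∀ g : G, Measurable (fun x : X => g • x) := fun g => hm.comp measurable_prodMk_left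
  let κ : Kernel G X := ⟨fun g => μ.map (fun x => g • x), by
    refine Measure.measurable_of_measurable_coe _ fun s hs => ?_
    simp_rw [Measure.map_apply (hg _) hs]
    exact measurable_measure_prodMk_left (hm hs)⟩
  have hκ : ∀ g, κ g = μ.map (fun x => g • x) := fun _ => rfl
  have : IsFiniteKernel κ := ⟨μ univ, measure_lt_top _ _, fun g => by
    rw [hκ, Measure.map_apply (hg _) MeasurableSet.univ, preimage_univ]⟩
  let r : G → X → ℝ := fun g x => (Kernel.rnDeriv κ (Kernel.const G μ) g x).toReal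
  have hr : Measurable (fun p : G × X => r p.1 p.2) :=
    (Kernel.measurable_rnDeriv κ (Kernel.const G μ)).ennreal_toReal
  have hre : ∀ g, r g =ᵐ[μ] fun x => ((κ g).rnDeriv μ x).toReal := fun g => by
    filter_upwards [Kernel.rnDeriv_eq_rnDeriv_measure (κ := κ) (η := Kernel.const G μ) (a := g)]
      with x hx
    exact congrArg ENNReal.toReal hx
  have hri : ∀ g, Integrable (r g) μ := fun g =>
    Measure.integrable_toReal_rnDeriv.congr (hre g).symm
  have hrs : ∀ g A, MeasurableSet A → ∫ x in A, r g x ∂μ = μ.real ((fun x => g • x) ⁻¹' A) := by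
    intro g A hA
    rw [integral_congr_ae (ae_restrict_of_ae (hre g)), hκ,
      Measure.setIntegral_toReal_rnDeriv (hq g) A, map_measureReal_apply (hg g) hA]
  have : Fact ((1 : ENNReal) ≠ ⊤) := ⟨ENNReal.one_ne_top⟩
  obtain ⟨D, hDc, hDd⟩ := exists_countable_dense (Lp ℝ 1 μ)
  have := hDc.to_subtype
  let C : D → Set G := fun f => {g | ∫ x, |r g x - f.1 x| ∂μ < ε / 2}
  have hC : ∀ f, MeasurableSet (C f) := fun f => by
    have h1 : StronglyMeasurable (fun p : G × X => |r p.1 p.2 - f.1 p.2|) :=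
      (hr.sub ((Lp.stronglyMeasurable f.1).measurable.comp measurable_snd)).abs.stronglyMeasurable
    exact measurableSet_lt h1.integral_prod_right'.measurable measurable_const
  have hcov : ∀ g, g ∈ (univ : Set G) → g ∈ ⋃ f, C f := by
    intro g _
    obtain ⟨f, hfD, hf⟩ := Metric.dense_iff.1 hDd ((hri g).toL1 _) (ε / 2) (half_pos hε)
    refine mem_iUnion.2 ⟨⟨f, hf⟩, ?_⟩
    rw [Metric.mem_ball, dist_comm, L1.dist_eq_integral_dist] at hfD
    refine lt_of_eq_of_lt (integral_congr_ae ?_) hfD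
    filter_upwards [(hri g).coeFn_toL1] with x hx
    rw [hx, Real.dist_eq]
  obtain ⟨f, hf⟩ : ∃ f, ¬ IsMeagre (C f) := by
    by_contra h
    push Not at h
    exact not_isMeagre_of_isOpen isOpen_univ univ_nonempty (mg (isMeagre_iUnion h) hcov)
  have key : ∀ g ∈ C f, ∀ A, MeasurableSet A →
      |μ.real ((fun x => g • x) ⁻¹' A) - ∫ x in A, f.1 x ∂μ| ≤ ε / 2 := by
    intro g hgC A hA
    have hi : Integrable (fun x => r g x - f.1 x) μ := (hri g).sub (L1.integrable_coeFn f.1)
    rw [← hrs g A hA, ← integral_sub (hri g).integrableOn (L1.integrable_coeFn f.1).integrableOn]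
    refine abs_integral_le_integral_abs.trans (le_trans ?_ (le_of_lt hgC))
    exact setIntegral_le_integral hi.abs (Eventually.of_forall fun x => abs_nonneg _)
  refine ⟨_, pettis (hC f) hf, ?_⟩
  rintro u ⟨a, ha, hau⟩ A hA
  have hB : MeasurableSet ((fun x => a⁻¹ • x) ⁻¹' A) := hg _ hA
  have h1 := key a ha _ hB
  have h2 := key _ hau _ hB
  have e1 : (fun x => a • x) ⁻¹' ((fun x => a⁻¹ • x) ⁻¹' A) = A := by
    ext x
    simp
  have e2 : (fun x => (a * u) • x) ⁻¹' ((fun x => a⁻¹ • x) ⁻¹' A) = (fun x => u • x) ⁻¹' A := by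
    ext x
    simp [mul_smul]
  rw [e1] at h1
  rw [e2] at h2
  have := abs_le.1 h1
  have := abs_le.1 h2
  linarith

end TV

section Count

variable {X : Type} [MeasurableSpace X]

open scoped Classical in
lemma cnt {Ω : Type} (s : Finset Ω) (E : Ω → Set X) (hE : ∀ ω, MeasurableSet (E ω))
    (μ : Measure X) [IsFiniteMeasure μ] :
    Integrable (fun x => ((s.filter fun ω => x ∈ E ω).card : ℝ)) μ ∧
      ∫ x, ((s.filter fun ω => x ∈ E ω).card : ℝ) ∂μ = ∑ ω ∈ s, μ.real (E ω) := by
  have e : (fun x => ((s.filter fun ω => x ∈ E ω).card : ℝ)) =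
      fun x => ∑ ω ∈ s, (E ω).indicator (fun _ => (1 : ℝ)) x := by
    funext x
    simp only [indicator_apply, Finset.sum_boole]
  have hi : ∀ ω ∈ s, Integrable ((E ω).indicator (fun _ => (1 : ℝ))) μ := fun ω _ =>
    (integrable_const _).indicator (hE ω)
  rw [e]
  refine ⟨integrable_finsetSum _ hi, ?_⟩
  rw [integral_finsetSum _ hi]
  refine Finset.sum_congr rfl fun ω _ => ?_
  rw [integral_indicator (hE ω)]
  simp

end Count

section KL

variable {G X : Type} [Group G] [TopologicalSpace G] [MeasurableSpace X] [MulAction G X]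

open scoped Classical in
lemma kl (hs : Sep G X) (hg : ∀ g : G, Measurable (fun x : X => g • x)) (μ : Measure X)
    [IsFiniteMeasure μ] (t : G) (U : Set G) (ε : ℝ)
    (hU : ∀ u ∈ U, ∀ A : Set X, MeasurableSet A →
      μ.real A ≤ μ.real ((fun x => u • x) ⁻¹' A) + ε)
    (H : ∀ V ∈ 𝓝 (1 : G), ∀ η : ℝ, 0 < η → ∃ (Ω : Type) (_ : Fintype Ω) (_ : Nonempty Ω)
      (γ : Ω → G) (τ : Ω ≃ Ω), (∀ ω, γ ω ∈ U) ∧
      ((Finset.univ.filter fun ω => γ (τ ω) ≠ t * γ ω).card : ℝ) ≤ η * Fintype.card Ω ∧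
      ∀ A B : Finset Ω, (∀ a ∈ A, ∀ b ∈ B, γ b * (γ a)⁻¹ ∉ V) →
        (A.card : ℝ) ≤ η * Fintype.card Ω ∨ (B.card : ℝ) ≤ η * Fintype.card Ω) :
    μ.real {x | t • x ≠ x} ≤ ε := by
  obtain ⟨ι, _, P, Q, V, h1, h2⟩ := hs
  let M : ι → Set X := fun i => P i ∩ (fun x => t • x) ⁻¹' (Q i)ᶜ
  have hM : ∀ i, MeasurableSet (M i) := fun i => (h1 i).1.inter (hg t (h1 i).2.1.compl)
  have fin : ∀ F : Finset ι, μ.real (⋃ i ∈ F, M i) ≤ ε := by
    intro F
    have hF : MeasurableSet (⋃ i ∈ F, M i) := F.measurableSet_biUnion fun i _ => hM i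
    refine le_of_forall_pos_le_add fun δ hδ => ?_
    have hc : (0 : ℝ) < (F.card + 1) * (μ.real univ + 1) := by positivity
    obtain ⟨Ω, _, _, γ, τ, hγ, hτ, hAB⟩ := H (⋂ i ∈ F, V i)
      ((biInter_finset_mem F).2 fun i _ => (h1 i).2.2.1) (δ / ((F.card + 1) * (μ.real univ + 1)))
      (by positivity)
    set η := δ / ((F.card + 1) * (μ.real univ + 1)) with hη
    have hη0 : 0 < η := by positivity
    have hN : (0 : ℝ) < Fintype.card Ω := by exact_mod_cast Fintype.card_pos
    let E : Ω → Set X := fun ω => (fun x => γ ω • x) ⁻¹' ⋃ i ∈ F, M i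
    have hx : ∀ x, ((Finset.univ.filter fun ω => x ∈ E ω).card : ℝ) ≤
        (F.card + 1) * (η * Fintype.card Ω) := by
      intro x
      let S : ι → Finset Ω := fun i =>
        Finset.univ.filter fun ω => γ ω • x ∈ P i ∧ γ (τ ω) • x ∉ Q i
      have hS : ∀ i ∈ F, ((S i).card : ℝ) ≤ η * Fintype.card Ω := by
        intro i hi
        rcases hAB (Finset.univ.filter fun ω => γ ω • x ∈ P i)
          (Finset.univ.filter fun ω => γ ω • x ∉ Q i) (by
            intro a ha b hb hv
            have := (h1 i).2.2.2 _ (mem_iInter₂.1 hv i hi) _ (Finset.mem_filter.1 ha).2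
            rw [smul_smul, inv_mul_cancel_right] at this
            exact (Finset.mem_filter.1 hb).2 this) with h | h
        · refine le_trans ?_ h
          refine Nat.cast_le.2 (Finset.card_le_card fun ω hω => ?_)
          exact Finset.mem_filter.2 ⟨Finset.mem_univ _, (Finset.mem_filter.1 hω).2.1⟩
        · refine le_trans ?_ h
          refine Nat.cast_le.2 (Finset.card_le_card_of_injOn τ (fun ω hω => ?_) τ.injective.injOn)
          exact Finset.mem_coe.2 (Finset.mem_filter.2 ⟨Finset.mem_univ _,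
              (Finset.mem_filter.1 (Finset.mem_coe.1 hω)).2.2⟩)
      have hsub : (Finset.univ.filter fun ω => x ∈ E ω) ⊆
          F.biUnion S ∪ Finset.univ.filter fun ω => γ (τ ω) ≠ t * γ ω := by
        intro ω hω
        obtain ⟨i, hi, hx⟩ := mem_iUnion₂.1 (Finset.mem_filter.1 hω).2
        by_cases h : γ (τ ω) = t * γ ω
        · refine Finset.mem_union_left _ (Finset.mem_biUnion.2 ⟨i, hi, ?_⟩)
          refine Finset.mem_filter.2 ⟨Finset.mem_univ _, hx.1, ?_⟩
          rw [h, mul_smul]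
          exact hx.2
        · exact Finset.mem_union_right _ (Finset.mem_filter.2 ⟨Finset.mem_univ _, h⟩)
      have h3 : ((F.biUnion S).card : ℝ) ≤ F.card * (η * Fintype.card Ω) := by
        calc ((F.biUnion S).card : ℝ) ≤ ∑ i ∈ F, ((S i).card : ℝ) := by
              exact_mod_cast Finset.card_biUnion_le
          _ ≤ _ := by simpa using Finset.sum_le_card_nsmul F _ _ hS
      have h4 : ((Finset.univ.filter fun ω => x ∈ E ω).card : ℝ) ≤ (F.biUnion S).card +
          (Finset.univ.filter fun ω => γ (τ ω) ≠ t * γ ω).card := by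
        exact_mod_cast (Finset.card_le_card hsub).trans (Finset.card_union_le _ _)
      linarith
    obtain ⟨hi, he⟩ := cnt Finset.univ E (fun ω => hg _ hF) μ
    have h5 : ∑ ω, μ.real (E ω) ≤ μ.real univ * ((F.card + 1) * (η * Fintype.card Ω)) := by
      rw [← he]
      simpa using integral_mono hi (integrable_const _) hx
    have h6 : Fintype.card Ω * (μ.real (⋃ i ∈ F, M i) - ε) ≤ ∑ ω, μ.real (E ω) := by
      have := Finset.card_nsmul_le_sum Finset.univ (fun ω => μ.real (E ω))
        (μ.real (⋃ i ∈ F, M i) - ε) fun ω _ => by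
          have := hU _ (hγ ω) _ hF
          linarith
      simpa using this
    have h7 : μ.real (⋃ i ∈ F, M i) - ε ≤ μ.real univ * ((F.card + 1) * η) := by
      refine le_of_mul_le_mul_left ?_ hN
      nlinarith
    have h8 : (μ.real univ + 1) * ((F.card + 1) * η) = δ := by
      rw [hη]
      field_simp
    have h9 : (0 : ℝ) ≤ (F.card + 1) * η := by positivity
    nlinarith
  have hsub : {x | t • x ≠ x} ⊆ ⋃ F : Finset ι, ⋃ i ∈ F, M i := by
    intro x hx
    obtain ⟨i, hi⟩ := h2 x (t • x) (Ne.symm hx)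
    exact mem_iUnion.2 ⟨{i}, by simpa [M] using hi⟩
  have hε : 0 ≤ ε := le_trans measureReal_nonneg (fin ∅)
  have hmono : Monotone fun F : Finset ι => ⋃ i ∈ F, M i := fun F F' h =>
    biUnion_subset_biUnion_left h
  refine ENNReal.toReal_le_of_le_ofReal hε ((measure_mono hsub).trans ?_)
  rw [hmono.directed_le.measure_iUnion]
  refine iSup_le fun F => ?_
  exact (ENNReal.le_ofReal_iff_toReal_le (measure_ne_top _ _) hε).2 (fin F)

end KL

end Pool.Agent.MP_9152e2_an.Pos
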