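import Mathlib

set_option autoImplicit false

open MeasureTheory Filter Topology

namespace Pool.Agent.MP_9152e2_an.Pos

/-- `s` is the top of a dyadic system of commuting elements `h n i` (level `n`, position `i`,
each the product of its two children) such that the subgroups generated by a small proportion of
the elements of one level lie in any given neighbourhood of the identity. -/
def IsDiffuse {G : Type} [Group G] [TopologicalSpace G] (s : G) : Prop :=
  ∃ h : ℕ → ℕ → G, h 0 0 = s ∧ (∀ n i, h n i = h (n + 1) (2 * i) * h (n + 1) (2 * i + 1)) ∧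
    (∀ n i m j, Commute (h n i) (h m j)) ∧
    ∀ U ∈ 𝓝 (1 : G), ∃ r : ℝ, 0 < r ∧ ∀ (n : ℕ) (S : Finset ℕ), (S.card : ℝ) ≤ r * 2 ^ n →
      (Subgroup.closure (h n '' S) : Set G) ⊆ U

/-- The strong operator topology on the unitary group of `H`. -/
@[reducible] def sot (𝕜 H : Type) [RCLike 𝕜] [NormedAddCommGroup H] [InnerProductSpace 𝕜 H] :
    TopologicalSpace (H ≃ₗᵢ[𝕜] H) :=
  TopologicalSpace.induced (fun (u : H ≃ₗᵢ[𝕜] H) (x : H) => u x) inferInstance

/-- `s` lies in the image of a homomorphism `φ` from `A` that is continuous at the identity when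
the members of `B` are taken as basic neighbourhoods of the identity of `A`. -/
def Hits {G : Type} [Group G] [TopologicalSpace G] (A : Type) [Group A] (B : Set (Set A))
    (s : G) : Prop :=
  ∃ φ : A →* G, (∀ U ∈ 𝓝 (1 : G), ∃ b ∈ B, ∀ a ∈ b, φ a ∈ U) ∧ s ∈ φ.range

/-- Image of the unitary group (strong topology) of an infinite dimensional real or complex
Hilbert space. -/
def FromUnitary {G : Type} [Group G] [TopologicalSpace G] (s : G) : Prop :=
  ∃ (𝕜 H : Type) (_ : RCLike 𝕜) (_ : NormedAddCommGroup H) (_ : InnerProductSpace 𝕜 H)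
    (_ : CompleteSpace H), ¬ FiniteDimensional 𝕜 H ∧
    Hits (H ≃ₗᵢ[𝕜] H) (@nhds _ (sot 𝕜 H) (LinearIsometryEquiv.refl 𝕜 H)).sets s

/-- Image of a full group `Γ` of nonsingular Borel bijections of the unit interval (uniform
topology). -/
def FromFull {G : Type} [Group G] [TopologicalSpace G] (s : G) : Prop :=
  ∃ Γ : Subgroup (Equiv.Perm unitInterval),
    (∀ T ∈ Γ, Measure.QuasiMeasurePreserving T volume volume) ∧
    (∀ T ∈ Γ, ∀ S : Equiv.Perm unitInterval, Measurable S →
      (∀ x, S x = x ∨ S x = T x ∨ S x = T⁻¹ x) → S ∈ Γ) ∧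
    Hits Γ {b | ∃ δ : ℝ, 0 < δ ∧ b = {T | volume.real {x | T.1 x ≠ x} < δ}} s

/-- Image of the group of all Borel maps of the unit interval to a second countable topological
group `K` (convergence in measure). -/
def FromL0 {G : Type} [Group G] [TopologicalSpace G] (s : G) : Prop :=
  ∃ (K : Type) (_ : Group K) (_ : TopologicalSpace K) (_ : IsTopologicalGroup K)
    (_ : SecondCountableTopology K) (_ : MeasurableSpace K) (_ : BorelSpace K)
    (Λ : Subgroup (unitInterval → K)), (∀ f, f ∈ Λ ↔ Measurable f) ∧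
    Hits Λ {b | ∃ V ∈ 𝓝 (1 : K), ∃ δ : ℝ, 0 < δ ∧ b = {f | volume.real {x | f.1 x ∉ V} < δ}} s

end Pool.Agent.MP_9152e2_an.Pos
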