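import Mathlib
import Pool.Agent.MP_9152e2_an.Pos.Defs
import Pool.Agent.MP_9152e2_an.Pos.B

set_option autoImplicit false

open MeasureTheory Filter Topology Set TopologicalSpace
open scoped BigOperators

namespace Pool.Agent.MP_9152e2_an.Pos

section Conc

variable {α : Type} [Fintype α] [Nonempty α] [DecidableEq α]

lemma var_eq {β : Type} [Fintype β] [Nonempty β] (g : β → ℝ) (c : ℝ) :
    𝔼 b, (g b - c) ^ 2 = 𝔼 b, g b ^ 2 - 2 * c * 𝔼 b, g b + c ^ 2 := by
  have e : ∀ b, (g b - c) ^ 2 = g b ^ 2 - 2 * c * g b + c ^ 2 := fun b => by ring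
  simp_rw [e]
  rw [Finset.expect_add_distrib, Finset.expect_sub_distrib, ← Finset.mul_expect,
    Fintype.expect_const]

/-- Hamming distance as a real number. -/
def ham {n : ℕ} (ω ω' : Fin n → α) : ℝ := ∑ j, if ω j = ω' j then 0 else 1

omit [Nonempty α] [DecidableEq α] in
lemma expect_succ {n : ℕ} (F : (Fin (n + 1) → α) → ℝ) :
    𝔼 ω, F ω = 𝔼 a : α, 𝔼 ω : Fin n → α, F (Fin.cons a ω) := by
  rw [← Finset.expect_product', Finset.univ_product_univ]
  exact (Fintype.expect_equiv (Fin.consEquiv fun _ => α) _ _ fun _ => rfl).symm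

lemma var_le (n : ℕ) : ∀ f : (Fin n → α) → ℝ, (∀ ω ω', f ω - f ω' ≤ ham ω ω') →
    𝔼 ω, f ω ^ 2 ≤ (𝔼 ω, f ω) ^ 2 + n := by
  induction n with
  | zero =>
    intro f _
    simp
  | succ n ih =>
    intro f hf
    let g : α → ℝ := fun a => 𝔼 ω : Fin n → α, f (Fin.cons a ω)
    have h1 : ∀ a, 𝔼 ω : Fin n → α, f (Fin.cons a ω) ^ 2 ≤ g a ^ 2 + n := fun a =>
      ih (fun ω => f (Fin.cons a ω)) fun ω ω' => by
        simpa [ham, Fin.sum_univ_succ] using hf (Fin.cons a ω) (Fin.cons a ω')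
    have h2 : ∀ a b, g a - g b ≤ 1 := fun a b => by
      rw [← Finset.expect_sub_distrib]
      refine Finset.expect_le Finset.univ_nonempty fun ω _ => (hf _ _).trans ?_
      simp only [ham, Fin.sum_univ_succ, Fin.cons_zero, Fin.cons_succ, if_true,
        Finset.sum_const_zero, add_zero]
      split_ifs <;> norm_num
    have h3 : ∀ a, (g a - 𝔼 b, g b) ^ 2 ≤ 1 := fun a => by
      have h4 : 𝔼 b, g b ≤ g a + 1 :=
        Finset.expect_le Finset.univ_nonempty fun b _ => by linarith [h2 b a]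
      have h5 : g a - 1 ≤ 𝔼 b, g b :=
        Finset.le_expect Finset.univ_nonempty fun b _ => by linarith [h2 a b]
      nlinarith
    have h6 := Finset.expect_le Finset.univ_nonempty fun a (_ : a ∈ Finset.univ) => h3 a
    rw [var_eq] at h6
    have h7 := Finset.expect_le_expect fun a (_ : a ∈ Finset.univ) => h1 a
    rw [Finset.expect_add_distrib, Fintype.expect_const] at h7
    rw [expect_succ (fun ω => f ω ^ 2), expect_succ f]
    push_cast
    change _ ≤ (𝔼 b, g b) ^ 2 + _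
    nlinarith

omit [Fintype α] [Nonempty α] in
lemma ham_tri {n : ℕ} (a b c : Fin n → α) : ham a b ≤ ham a c + ham b c := by
  unfold ham
  rw [← Finset.sum_add_distrib]
  refine Finset.sum_le_sum fun j _ => ?_
  by_cases h1 : a j = b j <;> by_cases h2 : a j = c j <;> by_cases h3 : b j = c j <;>
    simp_all

lemma conc {n : ℕ} (A B : Finset (Fin n → α)) {t : ℝ} (ht : 0 < t)
    (h : ∀ a ∈ A, ∀ b ∈ B, t ≤ ham a b) :
    A.card * t ^ 2 ≤ 4 * n * Fintype.card (Fin n → α) ∨
      B.card * t ^ 2 ≤ 4 * n * Fintype.card (Fin n → α) := by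
  rcases A.eq_empty_or_nonempty with rfl | hA
  · left
    simp only [Finset.card_empty, Nat.cast_zero, zero_mul]
    positivity
  let f : (Fin n → α) → ℝ := fun ω => A.inf' hA fun a => ham a ω
  have hf : ∀ ω ω', f ω - f ω' ≤ ham ω ω' := by
    intro ω ω'
    obtain ⟨a, ha, e⟩ := A.exists_mem_eq_inf' hA fun a => ham a ω'
    have h1 : f ω ≤ ham a ω := Finset.inf'_le _ ha
    have h2 : f ω' = ham a ω' := e
    linarith [ham_tri a ω ω']
  have h0 : ∀ a ∈ A, f a ≤ 0 := fun a ha =>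
    (Finset.inf'_le _ ha).trans (by simp [ham])
  have h1 : ∀ b ∈ B, t ≤ f b := fun b hb => Finset.le_inf' _ _ fun a ha => h a ha b hb
  set c := 𝔼 ω, f ω with hc
  have h2 : ∑ ω, (f ω - c) ^ 2 ≤ n * Fintype.card (Fin n → α) := by
    rw [← Fintype.card_mul_expect, var_eq, mul_comm]
    refine mul_le_mul_of_nonneg_right ?_ (Nat.cast_nonneg _)
    have := var_le n f hf
    nlinarith
  have key : ∀ S : Finset (Fin n → α), (∀ a ∈ S, t ^ 2 / 4 ≤ (f a - c) ^ 2) →
      S.card * t ^ 2 ≤ 4 * n * Fintype.card (Fin n → α) := by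
    intro S hS
    have h3 := Finset.card_nsmul_le_sum S _ _ hS
    have h4 : ∑ ω ∈ S, (f ω - c) ^ 2 ≤ ∑ ω, (f ω - c) ^ 2 :=
      Finset.sum_le_sum_of_subset_of_nonneg (Finset.subset_univ _) fun _ _ _ => sq_nonneg _
    rw [nsmul_eq_mul] at h3
    linarith
  rcases le_total (t / 2) c with h5 | h5
  · exact Or.inl (key A fun a ha => by nlinarith [h0 a ha])
  · exact Or.inr (key B fun b hb => by nlinarith [h1 b hb])

end Conc

lemma prod_two {K : Type} [CommMonoid K] (f : ℕ → K) (N : ℕ) :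
    ∏ j ∈ Finset.range (2 * N), f j = ∏ j ∈ Finset.range N, (f (2 * j) * f (2 * j + 1)) := by
  induction N with
  | zero => simp
  | succ N ih =>
    rw [Nat.mul_succ, Finset.prod_range_succ, Finset.prod_range_succ, ih, Finset.prod_range_succ,
      mul_assoc]

lemma prod_desc {K : Type} [CommMonoid K] (a : ℕ → ℕ → K)
    (ha : ∀ n i, a n i = a (n + 1) (2 * i) * a (n + 1) (2 * i + 1)) (n i k : ℕ) :
    ∏ j ∈ Finset.range (2 ^ k), a (n + k) (i * 2 ^ k + j) = a n i := by
  induction k with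
  | zero => simp
  | succ k ih =>
    rw [← ih, pow_succ', prod_two]
    refine Finset.prod_congr rfl fun j _ => ?_
    rw [ha (n + k) (i * 2 ^ k + j)]
    congr 2 <;> ring

section Main

variable {G X K : Type} [Group G] [TopologicalSpace G] [MeasurableSpace X] [MulAction G X]
  [CommGroup K]

/-- Products of few elements of one level are close to the identity. -/
def Small (φ : K →* G) (a : ℕ → ℕ → K) (U : Set G) (r : ℝ) : Prop :=
  ∀ (n : ℕ) (ι : Type) (T : Finset ι) (e : ι → ℕ) (c : ι → ℤ), (T.card : ℝ) ≤ r * 2 ^ n →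
    φ (∏ j ∈ T, a n (e j) ^ c j) ∈ U

lemma piece (hs : Sep G X) (hg : ∀ g : G, Measurable (fun x : X => g • x)) (μ : Measure X)
    [IsFiniteMeasure μ] (φ : K →* G) (a : ℕ → ℕ → K)
    (ha : ∀ n i, a n i = a (n + 1) (2 * i) * a (n + 1) (2 * i + 1))
    (hsm : ∀ U ∈ 𝓝 (1 : G), ∃ r : ℝ, 0 < r ∧ Small φ a U r) (U : Set G) (ε r : ℝ)
    (hU : ∀ u ∈ U, ∀ A : Set X, MeasurableSet A →
      μ.real A ≤ μ.real ((fun x => u • x) ⁻¹' A) + ε) (hr : Small φ a U r) (n i : ℕ)
    (hn : 1 ≤ r * 2 ^ n) : μ.real {x | φ (a n i) • x ≠ x} ≤ ε := by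
  classical
  refine kl hs hg μ _ U ε hU fun V hV η hη => ?_
  obtain ⟨r', hr', hV'⟩ := hsm V hV
  obtain ⟨k, hk⟩ := pow_unbounded_of_one_lt (4 / (η * r' ^ 2)) (one_lt_two (α := ℝ))
  obtain ⟨M, hM⟩ := exists_nat_gt ((2 : ℝ) ^ k / η)
  let b : Fin (2 ^ k) → K := fun j => a (n + k) (i * 2 ^ k + j)
  have hb : ∏ j, b j = a n i := by
    rw [← prod_desc a ha n i k, Finset.prod_range]
  let γ : (Fin (2 ^ k) → Fin (M + 1)) → G := fun ω => φ (∏ j, b j ^ ((ω j : ℕ) : ℤ))
  have h2n : (1 : ℝ) ≤ 2 ^ n := one_le_pow₀ one_le_two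
  have h2k : (0 : ℝ) < 2 ^ k := by positivity
  refine ⟨Fin (2 ^ k) → Fin (M + 1), inferInstance, inferInstance, γ, Equiv.addRight 1,
    fun ω => hr (n + k) _ Finset.univ _ _ ?_, ?_, ?_⟩
  · rw [Finset.card_univ, Fintype.card_fin, pow_add]
    push_cast
    nlinarith
  · have hsub : (Finset.univ.filter fun ω => γ (Equiv.addRight 1 ω) ≠ φ (a n i) * γ ω) ⊆
        Finset.univ.biUnion fun j => Finset.univ.filter fun ω => ω j = Fin.last M := by
      intro ω hω
      by_contra hne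
      apply (Finset.mem_filter.1 hω).2
      simp only [Finset.mem_biUnion, Finset.mem_univ, true_and, Finset.mem_filter,
        not_exists] at hne
      simp only [γ]
      rw [← map_mul, ← hb, ← Finset.prod_mul_distrib]
      congr 1
      refine Finset.prod_congr rfl fun j _ => ?_
      have : ((Equiv.addRight 1 ω j : Fin (M + 1)) : ℕ) = (ω j : ℕ) + 1 :=
        Fin.val_add_one_of_lt (lt_of_le_of_ne (Fin.le_last _) (hne j))
      rw [this, Nat.cast_succ, zpow_add_one, mul_comm]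
    have h1 : ∀ j : Fin (2 ^ k), (Finset.univ.filter fun ω : Fin (2 ^ k) → Fin (M + 1) =>
        ω j = Fin.last M).card = (M + 1) ^ (2 ^ k - 1) := fun j => by
      have := Fintype.card_filter_piFinset_const_eq_of_mem (Finset.univ : Finset (Fin (M + 1))) j
        (Finset.mem_univ (Fin.last M))
      simpa using this
    have h2 := (Finset.card_le_card hsub).trans Finset.card_biUnion_le
    simp only [h1, Finset.sum_const, Finset.card_univ, Fintype.card_fin, smul_eq_mul] at h2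
    have h3 : Fintype.card (Fin (2 ^ k) → Fin (M + 1)) = (M + 1) * (M + 1) ^ (2 ^ k - 1) := by
      rw [Fintype.card_fun, Fintype.card_fin, Fintype.card_fin, ← pow_succ',
        Nat.sub_add_cancel Nat.one_le_two_pow]
    rw [h3]
    refine (Nat.cast_le.2 h2).trans ?_
    push_cast
    rw [← mul_assoc]
    refine mul_le_mul_of_nonneg_right ?_ (by positivity)
    rw [div_lt_iff₀ hη] at hM
    nlinarith
  · intro A B hAB
    have h1 : ∀ x ∈ A, ∀ y ∈ B, r' * 2 ^ k ≤ ham x y := by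
      intro x hx y hy
      by_contra hlt
      apply hAB x hx y hy
      have h2 := hV' (n + k) _ (Finset.univ.filter fun j => ¬ x j = y j)
        (fun j : Fin (2 ^ k) => i * 2 ^ k + j) (fun j => ((y j : ℕ) : ℤ) - ((x j : ℕ) : ℤ)) (by
          have h3 : ham x y = ((Finset.univ.filter fun j => ¬ x j = y j).card : ℝ) := by
            simp only [ham, ← Finset.sum_boole, ite_not]
          rw [← h3, pow_add]
          nlinarith [mul_pos hr' h2k])
      convert h2 using 1
      simp only [γ]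
      rw [← map_inv, ← map_mul, ← Finset.prod_inv_distrib, ← Finset.prod_mul_distrib,
        Finset.prod_filter]
      congr 1
      refine Finset.prod_congr rfl fun j _ => ?_
      by_cases h4 : x j = y j
      · simp [h4]
      · simp [h4, zpow_sub, b]
    have h5 : ∀ S : Finset (Fin (2 ^ k) → Fin (M + 1)), S.card * (r' * 2 ^ k) ^ 2 ≤
        4 * ((2 ^ k : ℕ) : ℝ) * Fintype.card (Fin (2 ^ k) → Fin (M + 1)) →
        (S.card : ℝ) ≤ η * Fintype.card (Fin (2 ^ k) → Fin (M + 1)) := by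
      intro S hS
      rw [div_lt_iff₀ (by positivity)] at hk
      push_cast at hS
      have hN : (0 : ℝ) ≤ Fintype.card (Fin (2 ^ k) → Fin (M + 1)) := Nat.cast_nonneg _
      generalize (Fintype.card (Fin (2 ^ k) → Fin (M + 1)) : ℝ) = N at hS hN ⊢
      refine le_of_mul_le_mul_right (hS.trans ?_) (by positivity)
      have := mul_le_mul_of_nonneg_right hk.le (mul_nonneg h2k.le hN)
      nlinarith
    exact (conc A B (by positivity) h1).imp (h5 A) (h5 B)

lemma stab (hs : Sep G X) (s : G) (x : X)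
    (h : ∀ U ∈ 𝓝 (1 : G), ∃ u ∈ U, ∃ t : G, t • x = x ∧ s = u * t) : s • x = x := by
  obtain ⟨ι, _, P, Q, V, h1, h2⟩ := hs
  by_contra hne
  obtain ⟨i, hi, hq⟩ := h2 x (s • x) (Ne.symm hne)
  obtain ⟨u, hu, t, ht, rfl⟩ := h _ (h1 i).2.2.1
  rw [mul_smul, ht] at hq
  exact hq ((h1 i).2.2.2 u hu x hi)

lemma top_fix (hs : Sep G X) (hg : ∀ g : G, Measurable (fun x : X => g • x))
    (he : ∀ g : G, MeasurableSet {x : X | g • x ≠ x}) (μ : Measure X)
    [IsFiniteMeasure μ] (φ : K →* G) (a : ℕ → ℕ → K)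
    (ha : ∀ n i, a n i = a (n + 1) (2 * i) * a (n + 1) (2 * i + 1))
    (hsm : ∀ U ∈ 𝓝 (1 : G), ∃ r : ℝ, 0 < r ∧ Small φ a U r)
    (htv : ∀ ε : ℝ, 0 < ε → ∃ U ∈ 𝓝 (1 : G), ∀ u ∈ U, ∀ A : Set X, MeasurableSet A →
      μ.real A ≤ μ.real ((fun x => u • x) ⁻¹' A) + ε) : ∀ᵐ x ∂μ, φ (a 0 0) • x = x := by
  classical
  let Z : ℕ → ℕ → Set X := fun n i => {x | φ (a n i) • x ≠ x}
  let c : ℕ → X → ℝ := fun n x => ((Finset.range (2 ^ n)).filter fun i => x ∈ Z n i).card
  have h1 : ∀ ρ : ℝ, 0 < ρ → ∀ᵐ x ∂μ, ∃ n, c n x ≤ ρ * 2 ^ n := by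
    intro ρ hρ
    rw [ae_iff, ← measureReal_eq_zero_iff]
    refine le_antisymm (le_of_forall_pos_le_add fun δ hδ => ?_) measureReal_nonneg
    obtain ⟨U, hU, hU'⟩ := htv (δ * ρ) (by positivity)
    obtain ⟨r, hr, hr'⟩ := hsm U hU
    obtain ⟨n, hn⟩ := pow_unbounded_of_one_lt (1 / r) (one_lt_two (α := ℝ))
    rw [div_lt_iff₀ hr, mul_comm] at hn
    obtain ⟨hi, hc⟩ : Integrable (c n) μ ∧
        ∫ x, c n x ∂μ = ∑ i ∈ Finset.range (2 ^ n), μ.real (Z n i) := by
      convert cnt (Finset.range (2 ^ n)) (Z n) (fun i => he _) μ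
    have h2 := mul_meas_ge_le_integral_of_nonneg (μ := μ) (f := c n)
      (Eventually.of_forall fun x => Nat.cast_nonneg _) hi (ρ * 2 ^ n)
    have h3 : ∫ x, c n x ∂μ ≤ 2 ^ n * (δ * ρ) := by
      have := Finset.sum_le_card_nsmul (Finset.range (2 ^ n)) (fun i => μ.real (Z n i)) (δ * ρ)
        fun i _ => piece hs hg μ φ a ha hsm U _ r hU' hr' n i hn.le
      rw [← hc] at this
      simpa using this
    have h4 : μ.real {x | ¬∃ n, c n x ≤ ρ * 2 ^ n} ≤ μ.real {x | ρ * 2 ^ n ≤ c n x} :=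
      measureReal_mono fun x hx => le_of_lt (lt_of_not_ge fun h => hx ⟨n, h⟩)
    have h5 : (0 : ℝ) < ρ * 2 ^ n := by positivity
    rw [zero_add]
    refine h4.trans (le_of_mul_le_mul_left ?_ h5)
    nlinarith
  have h2 : ∀ᵐ x ∂μ, ∀ k : ℕ, ∃ n, c n x ≤ 1 / ((k : ℝ) + 1) * 2 ^ n :=
    ae_all_iff.2 fun k => h1 _ Nat.one_div_pos_of_nat
  filter_upwards [h2] with x hx
  refine stab hs _ x fun U hU => ?_
  obtain ⟨r, hr, hr'⟩ := hsm U hU
  obtain ⟨k, hk⟩ := exists_nat_one_div_lt hr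
  obtain ⟨n, hn⟩ := hx k
  refine ⟨_, hr' n ℕ ((Finset.range (2 ^ n)).filter fun i => x ∈ Z n i) id (fun _ => 1)
    (hn.trans (mul_le_mul_of_nonneg_right hk.le (by positivity))),
    φ (∏ i ∈ (Finset.range (2 ^ n)).filter fun i => ¬ x ∈ Z n i, a n i), ?_, ?_⟩
  · have : (∏ i ∈ (Finset.range (2 ^ n)).filter fun i => ¬ x ∈ Z n i, a n i) ∈
        (MulAction.stabilizer G x).comap φ :=
      Subgroup.prod_mem _ fun i hi => not_not.1 (Finset.mem_filter.1 hi).2
    exact this
  · rw [← map_mul]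
    simp only [id, zpow_one]
    rw [Finset.prod_filter_mul_prod_filter_not, ← prod_desc a ha 0 0 n]
    simp

end Main

section Final

variable {G X : Type} [Group G] [TopologicalSpace G] [IsTopologicalGroup G] [MeasurableSpace G]
  [BorelSpace G] [BaireSpace G] [SecondCountableTopology G] [MeasurableSpace X]
  [StandardBorelSpace X] [MulAction G X]

open scoped IsMulCommutative in
lemma diffuse_fix (hm : Measurable (fun p : G × X => p.1 • p.2)) (μ : Measure X)
    [IsFiniteMeasure μ] (hq : ∀ g : G, μ.map (fun x => g • x) ≪ μ) {s : G} (hs : IsDiffuse s) :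
    ∀ᵐ x ∂μ, s • x = x := by
  classical
  obtain ⟨h, rfl, h1, h2, h3⟩ := hs
  have hg : ∀ g : G, Measurable (fun x : X => g • x) := fun g => hm.comp measurable_prodMk_left
  let K := Subgroup.closure (range (Function.uncurry h))
  have : IsMulCommutative K := Subgroup.isMulCommutative_closure (by
    rintro _ ⟨p, rfl⟩ _ ⟨q, rfl⟩
    exact h2 _ _ _ _)
  let a : ℕ → ℕ → K := fun n i => ⟨h n i, Subgroup.subset_closure ⟨(n, i), rfl⟩⟩
  refine top_fix (sep_of hm) hg (fun g => (measurableSet_eq_fun (hg g) measurable_id).compl) μ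
    K.subtype a (fun n i => Subtype.ext (h1 n i)) (fun U hU => ?_) fun ε hε => tv hm μ hq hε
  obtain ⟨r, hr, hr'⟩ := h3 U hU
  refine ⟨r, hr, fun n ι T e c hT => hr' n (T.image e) ?_ ?_⟩
  · exact (Nat.cast_le.2 Finset.card_image_le).trans hT
  · have : (∏ j ∈ T, a n (e j) ^ c j) ∈
        (Subgroup.closure (h n '' (T.image e : Finset ℕ))).comap K.subtype :=
      Subgroup.prod_mem _ fun j hj => Subgroup.zpow_mem _ (Subgroup.subset_closure
        (k := h n '' (T.image e : Finset ℕ)) ⟨e j, by simpa using ⟨j, hj, rfl⟩, rfl⟩) _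
    exact this

theorem all_fix (hm : Measurable (fun p : G × X => p.1 • p.2)) (μ : Measure X) [SFinite μ]
    (hq : ∀ g : G, μ.map (fun x => g • x) ≪ μ) :
    ∀ᵐ x ∂μ, ∀ g ∈ closure (Subgroup.closure {s : G | IsDiffuse s} : Set G), g • x = x := by
  have hg : ∀ g : G, Measurable (fun x : X => g • x) := fun g => hm.comp measurable_prodMk_left
  have hq' : ∀ g : G, μ.toFinite.map (fun x => g • x) ≪ μ.toFinite := fun g =>
    (((toFinite_absolutelyContinuous μ).map (hg g)).trans (hq g)).trans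
      (absolutelyContinuous_toFinite μ)
  have h1 : ∀ g ∈ Subgroup.closure {s : G | IsDiffuse s}, ∀ᵐ x ∂μ, g • x = x := by
    intro g hg
    induction hg using Subgroup.closure_induction with
    | mem s hs => simpa using diffuse_fix hm μ.toFinite hq' hs
    | one => simp
    | mul a b _ _ ha hb =>
      filter_upwards [ha, hb] with x ha hb
      rw [mul_smul, hb, ha]
    | inv a _ ha =>
      filter_upwards [ha] with x ha
      exact inv_smul_eq_iff.2 ha.symm
  obtain ⟨D, hD, hDc, hDd⟩ := (IsSeparable.of_separableSpace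
    (Subgroup.closure {s : G | IsDiffuse s} : Set G)).exists_countable_dense_subset
  filter_upwards [(ae_ball_iff hDc).2 fun g hg => h1 g (hD hg)] with x hx g hg
  refine stab (sep_of hm) g x fun U hU => ?_
  have hc : ContinuousAt (fun t : G => g * t⁻¹) g := by fun_prop
  obtain ⟨t, htU, ht⟩ := mem_closure_iff_nhds.1 (closure_minimal hDd isClosed_closure hg) _
    (hc.preimage_mem_nhds (t := U) (by simpa using hU))
  exact ⟨_, htU, t, hx t ht, by simp⟩

omit [TopologicalSpace G] [IsTopologicalGroup G] [BorelSpace G] [BaireSpace G]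
  [SecondCountableTopology G] [MeasurableSpace G] in
theorem zero_of_fix (μ : Measure X) (h0 : ∀ x, μ {x} = 0) (hf : ∀ᵐ x ∂μ, ∀ g : G, g • x = x)
    (he : ∀ S : Set X, MeasurableSet S → (∀ g : G, (fun x => g • x) ⁻¹' S = S) →
      μ S = 0 ∨ μ Sᶜ = 0) : μ = 0 := by
  obtain ⟨N, hN, hNm, hN0⟩ := exists_measurable_superset_of_null (ae_iff.1 hf)
  have hfix : ∀ x, x ∉ N → ∀ g : G, g • x = x := fun x hx => not_not.1 fun h => hx (hN h)
  have h1 : ∀ B : Set X, MeasurableSet B → (∀ᵐ x ∂μ, x ∉ B) ∨ ∀ᵐ x ∂μ, x ∈ B := by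
    intro B hB
    rcases he (B \ N) (hB.diff hNm) (fun g => by
      ext x
      constructor
      · intro hx
        have := hfix _ hx.2 g⁻¹
        rw [inv_smul_smul] at this
        rw [this]
        exact hx
      · intro hx
        show g • x ∈ B \ N
        rw [hfix x hx.2 g]
        exact hx) with h | h
    · left
      filter_upwards [measure_eq_zero_iff_ae_notMem.1 h, measure_eq_zero_iff_ae_notMem.1 hN0]
        with x h1 h2 h3 using h1 ⟨h3, h2⟩
    · right
      filter_upwards [measure_eq_zero_iff_ae_notMem.1 h] with x h1 using (not_not.1 h1).1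
  obtain ⟨f, hf, hi⟩ := MeasurableSpace.measurable_injection_nat_bool_of_countablySeparated X
  have h2 : ∀ n, ∃ b, ∀ᵐ x ∂μ, f x n = b := fun n => by
    rcases h1 {x | f x n = true}
      (((measurable_pi_apply n).comp hf) (measurableSet_singleton true)) with h | h
    · exact ⟨false, h.mono fun x hx => by simpa using hx⟩
    · exact ⟨true, h⟩
  choose b hb using h2
  have h3 : μ {x | f x = b} = 0 := by
    rcases Set.eq_empty_or_nonempty {x | f x = b} with h | ⟨y, hy⟩
    · rw [h, measure_empty]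
    · exact measure_mono_null (fun x hx => hi (Eq.trans hx (Eq.symm hy))) (h0 y)
  rw [← ae_eq_bot, ← eventually_false_iff_eq_bot]
  filter_upwards [ae_all_iff.2 hb, measure_eq_zero_iff_ae_notMem.1 h3] with x h4 h5
  exact h5 (funext h4)

end Final

end Pool.Agent.MP_9152e2_an.Pos
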