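import Mathlib
import Pool.Agent.MP_9152e2_an.Pos.Defs

set_option autoImplicit false

open MeasureTheory Filter Topology Set TopologicalSpace
open scoped InnerProductSpace

namespace Pool.Agent.MP_9152e2_an.Pos

/-- The dyadic interval of level `n` and position `i`. -/
def dy (n i : ℕ) : Set ℝ := Ico ((i : ℝ) / 2 ^ n) (((i : ℝ) + 1) / 2 ^ n)

lemma dy_meas (n i : ℕ) : MeasurableSet (dy n i) := measurableSet_Ico

lemma dy_zero : dy 0 0 = Ico 0 1 := by simp [dy]

lemma dy_union (n i : ℕ) : dy n i = dy (n + 1) (2 * i) ∪ dy (n + 1) (2 * i + 1) := by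
  have h : (0 : ℝ) < 2 ^ (n + 1) := by positivity
  unfold dy
  push_cast
  rw [Ico_union_Ico_eq_Ico (div_le_div_of_nonneg_right (by linarith) h.le)
    (div_le_div_of_nonneg_right (by linarith) h.le)]
  congr 1 <;> field_simp <;> ring

lemma dy_disj (n i : ℕ) : Disjoint (dy (n + 1) (2 * i)) (dy (n + 1) (2 * i + 1)) := by
  unfold dy
  push_cast
  exact Ico_disjoint_Ico_same

lemma dy_vol (n : ℕ) (S : Finset ℕ) {r : ℝ} (h : (S.card : ℝ) ≤ r * 2 ^ n) :
    volume (⋃ i ∈ S, dy n i) ≤ ENNReal.ofReal r := by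
  refine (measure_biUnion_finset_le _ _).trans ?_
  have e : ∀ i, volume (dy n i) = ENNReal.ofReal (1 / 2 ^ n) := fun i => by
    rw [dy, Real.volume_Ico]
    congr 1
    ring
  simp only [e, Finset.sum_const, nsmul_eq_mul]
  rw [← ENNReal.ofReal_natCast, ← ENNReal.ofReal_mul (Nat.cast_nonneg _)]
  refine ENNReal.ofReal_le_ofReal ?_
  rw [mul_one_div, div_le_iff₀ (by positivity)]
  exact h

variable {𝕜 H : Type} [RCLike 𝕜] [NormedAddCommGroup H] [InnerProductSpace 𝕜 H]

lemma sot_nhds {u : H ≃ₗᵢ[𝕜] H} {U : Set (H ≃ₗᵢ[𝕜] H)} (hU : U ∈ @nhds _ (sot 𝕜 H) u) :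
    ∃ (F : Finset H) (t : H → Set H), (∀ x, t x ∈ 𝓝 (u x)) ∧
      ∀ w : H ≃ₗᵢ[𝕜] H, (∀ x ∈ F, w x ∈ t x) → w ∈ U := by
  rw [nhds_induced, mem_comap] at hU
  obtain ⟨W, hW, hWU⟩ := hU
  rw [nhds_pi, mem_pi'] at hW
  obtain ⟨F, t, ht, hF⟩ := hW
  exact ⟨F, t, ht, fun w hw => hWU (hF fun x hx => hw x hx)⟩

variable [CompleteSpace H]

lemma diffuse_of_proj (P : Set ℝ → H →L[𝕜] H)
    (hmul : ∀ S T, MeasurableSet S → MeasurableSet T → P S * P T = P (S ∩ T))
    (hsa : ∀ S, MeasurableSet S → star (P S) = P S)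
    (hadd : ∀ S T, MeasurableSet S → MeasurableSet T → Disjoint S T → P (S ∪ T) = P S + P T)
    (hsm : ∀ x, ∀ ε : ℝ, 0 < ε → ∃ δ : ℝ, 0 < δ ∧ ∀ S, MeasurableSet S →
      volume S ≤ ENNReal.ofReal δ → ‖P S x‖ ≤ ε) {z : 𝕜} (hz : ‖z‖ = 1) :
    ∃ d : H ≃ₗᵢ[𝕜] H, @IsDiffuse _ _ (sot 𝕜 H) d ∧ ∀ x, d x = x + (z - 1) • P (Ico 0 1) x := by
  have hz1 : star z * z = 1 := by
    rw [RCLike.star_def, RCLike.conj_mul, hz]
    simp
  have key : ∀ (a b : 𝕜) S T, MeasurableSet S → MeasurableSet T →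
      (1 + a • P S) * (1 + b • P T) = 1 + a • P S + b • P T + (a * b) • P (S ∩ T) := by
    intro a b S T hS hT
    rw [add_mul, mul_add, mul_add, smul_mul_smul_comm, hmul S T hS hT]
    simp only [one_mul, mul_one]
    abel
  have h0 : P ∅ = 0 := by
    simpa using hadd ∅ ∅ .empty .empty (by simp)
  have hu : ∀ S, MeasurableSet S → 1 + (z - 1) • P S ∈ unitary (H →L[𝕜] H) := by
    intro S hS
    have e : star (1 + (z - 1) • P S) = 1 + (star z - 1) • P S := by
      rw [star_add, star_one, star_smul, hsa S hS, star_sub, star_one]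
    rw [Unitary.mem_iff, e, key _ _ S S hS hS, key _ _ S S hS hS, inter_self]
    constructor
    · rw [add_assoc, add_assoc, ← add_smul, ← add_smul, add_eq_left]
      convert zero_smul 𝕜 (P S)
      linear_combination hz1
    · rw [add_assoc, add_assoc, ← add_smul, ← add_smul, add_eq_left]
      convert zero_smul 𝕜 (P S)
      linear_combination hz1
  let h : ℕ → ℕ → H ≃ₗᵢ[𝕜] H := fun n i =>
    Unitary.linearIsometryEquiv ⟨_, hu _ (dy_meas n i)⟩
  have hh : ∀ n i x, h n i x = x + (z - 1) • P (dy n i) x := fun n i x => rfl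
  refine ⟨h 0 0, ⟨h, rfl, fun n i => ?_, fun n i m j => ?_, fun U hU => ?_⟩, fun x => ?_⟩
  · rw [← map_mul]
    refine congrArg Unitary.linearIsometryEquiv (Subtype.ext ?_)
    show _ = (1 + _) * (1 + _)
    rw [key _ _ _ _ (dy_meas _ _) (dy_meas _ _), (dy_disj n i).inter_eq, h0, smul_zero, add_zero,
      add_assoc, ← smul_add, ← hadd _ _ (dy_meas _ _) (dy_meas _ _) (dy_disj n i), ← dy_union]
  · refine Commute.map (Subtype.ext ?_) _
    show (1 + _) * (1 + _) = (1 + _) * (1 + _)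
    rw [key _ _ _ _ (dy_meas _ _) (dy_meas _ _), key _ _ _ _ (dy_meas _ _) (dy_meas _ _),
      inter_comm]
    abel
  · obtain ⟨F, t, ht, hF⟩ := sot_nhds hU
    have h1 : ∀ x ∈ F, ∀ᶠ r in 𝓝[>] (0 : ℝ), ∀ S, MeasurableSet S →
        volume S ≤ ENNReal.ofReal r → ∀ y, ‖y - x‖ ≤ 2 * ‖P S x‖ → y ∈ t x := by
      intro x _
      obtain ⟨ε, hε, hb⟩ := Metric.mem_nhds_iff.1 (ht x)
      obtain ⟨δ, hδ, hs⟩ := hsm x (ε / 4) (by positivity)
      filter_upwards [Ioo_mem_nhdsGT hδ] with r hr S hS hv y hy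
      refine hb (mem_ball_iff_norm.2 ?_)
      have := hs S hS (hv.trans (ENNReal.ofReal_le_ofReal hr.2.le))
      show ‖y - x‖ < ε
      linarith
    obtain ⟨r, hr, hr0⟩ := (((eventually_all_finset F).2 h1).and self_mem_nhdsWithin).exists
    refine ⟨r, hr0, fun n S hS w hw => hF w fun x hx => ?_⟩
    have hm : MeasurableSet (⋃ i ∈ S, dy n i) := S.measurableSet_biUnion fun i _ => dy_meas n i
    refine hr x hx _ hm (dy_vol n S hS) _ ?_
    set Q := P (⋃ i ∈ S, dy n i)
    have h4 : w (x - Q x) = x - Q x := by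
      have hw' : w ∈ Subgroup.closure (h n '' S) := hw
      clear hw
      induction hw' using Subgroup.closure_induction with
      | mem _ hi =>
        obtain ⟨i, hi, rfl⟩ := hi
        have h3 : P (dy n i) (Q x) = P (dy n i) x := by
          have := hmul _ _ (dy_meas n i) hm
          rw [inter_eq_left.2 (Finset.subset_set_biUnion_of_mem (f := dy n) hi)] at this
          exact congrArg (fun A => A x) this
        rw [hh, map_sub, h3, sub_self, smul_zero, add_zero]
      | one => rfl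
      | mul a b _ _ ha hb => exact (congrArg a hb).trans ha
      | inv a _ ha => exact a.symm_apply_eq.2 ha.symm
    have h5 : w x - x = w (Q x) - Q x := by
      rw [map_sub] at h4
      exact sub_eq_sub_iff_sub_eq_sub.1 h4
    rw [h5]
    refine (norm_sub_le _ _).trans ?_
    rw [w.norm_map, two_mul]
  · rw [hh, dy_zero]

omit [CompleteSpace H] in
lemma exists_mul : ∃ M : Set ℝ → Lp 𝕜 2 (volume : Measure ℝ) →L[𝕜] Lp 𝕜 2 (volume : Measure ℝ),
    ∀ S, MeasurableSet S → ∀ f, M S f =ᵐ[volume] S.indicator f := by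
  have : ∀ S : Set ℝ, ∃ M : Lp 𝕜 2 (volume : Measure ℝ) →L[𝕜] Lp 𝕜 2 (volume : Measure ℝ),
      MeasurableSet S → ∀ f, M f =ᵐ[volume] S.indicator f := by
    intro S
    by_cases hS : MeasurableSet S
    swap
    · exact ⟨0, fun h => absurd h hS⟩
    let m : Lp 𝕜 2 (volume : Measure ℝ) → Lp 𝕜 2 (volume : Measure ℝ) := fun f =>
      ((Lp.memLp f).indicator hS).toLp _
    have hm : ∀ f, m f =ᵐ[volume] S.indicator f := fun f => MemLp.coeFn_toLp _
    refine ⟨LinearMap.mkContinuous ⟨⟨m, fun f g => ?_⟩, fun c f => ?_⟩ 1 fun f => ?_,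
      fun _ => hm⟩
    · ext1
      filter_upwards [hm (f + g), hm f, hm g, Lp.coeFn_add f g, Lp.coeFn_add (m f) (m g)]
        with x h1 h2 h3 h4 h5
      rw [h1, h5, Pi.add_apply, h2, h3]
      by_cases hx : x ∈ S
      · simp only [indicator_of_mem hx, h4, Pi.add_apply]
      · simp [hx]
    · ext1
      filter_upwards [hm (c • f), hm f, Lp.coeFn_smul c f, Lp.coeFn_smul c (m f)]
        with x h1 h2 h3 h4
      show m (c • f) x = (c • m f) x
      rw [h1, h4, Pi.smul_apply, h2]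
      by_cases hx : x ∈ S <;> simp [hx, h3]
    · rw [one_mul]
      refine Lp.norm_le_norm_of_ae_le ?_
      filter_upwards [hm f] with x h1
      show ‖m f x‖ ≤ _
      rw [h1]
      exact norm_indicator_le_norm_self _ _
  choose M hM using this
  exact ⟨M, hM⟩

lemma exists_emb {L : Type} [NormedAddCommGroup L] [InnerProductSpace 𝕜 L] [CompleteSpace L]
    [SeparableSpace L] (hH : ¬ FiniteDimensional 𝕜 H) {a : L} {v : H} (ha : ‖a‖ = 1)
    (hv : ‖v‖ = 1) : ∃ J : L →ₗᵢ[𝕜] H, J a = v := by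
  classical
  obtain ⟨wL, bL, h1, h2⟩ := Orthonormal.exists_hilbertBasis_extension (𝕜 := 𝕜) (s := {a})
    (by simpa using ha)
  obtain ⟨wH, bH, h3, h4⟩ := Orthonormal.exists_hilbertBasis_extension (𝕜 := 𝕜) (s := {v})
    (by simpa using hv)
  have : Infinite wH := by
    by_contra hi
    rw [not_infinite_iff_finite] at hi
    have := Fintype.ofFinite wH
    exact hH (Module.Finite.of_basis bH.toOrthonormalBasis.toBasis)
  have : Countable wL := by
    refine Pairwise.countable_of_isOpen_disjoint (s := fun i => Metric.ball (bL i) (1 / 2)) ?_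
      (fun _ => Metric.isOpen_ball) fun _ => Metric.nonempty_ball.2 (by norm_num)
    intro i j hij
    refine Metric.ball_disjoint_ball ?_
    have h5 := norm_sub_sq (𝕜 := 𝕜) (bL i) (bL j)
    rw [bL.orthonormal.2 hij, bL.orthonormal.1, bL.orthonormal.1] at h5
    rw [dist_eq_norm]
    simp only [map_zero] at h5
    nlinarith [norm_nonneg (bL i - bL j)]
  obtain ⟨e⟩ : Nonempty (wL ↪ wH) := nonempty_embedding_nat wL |>.map fun e =>
    e.trans (Infinite.natEmbedding wH)
  let e' := e.setValue ⟨a, h1 rfl⟩ ⟨v, h3 rfl⟩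
  have ho : Orthonormal 𝕜 (bH ∘ e') := bH.orthonormal.comp _ e'.injective
  refine ⟨ho.orthogonalFamily.linearIsometry.comp bL.repr.toLinearIsometry, ?_⟩
  have h6 : a = bL ⟨a, h1 rfl⟩ := by rw [h2]
  rw [LinearIsometry.coe_comp, Function.comp_apply, LinearIsometryEquiv.coe_toLinearIsometry]
  conv_lhs => rw [h6]
  rw [bL.repr_self, OrthogonalFamily.linearIsometry_apply_single]
  simp [e', h4]

lemma diffuse_rot (hH : ¬ FiniteDimensional 𝕜 H) (K : Submodule 𝕜 H) [FiniteDimensional 𝕜 K]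
    {v : H} (hv : v ∈ Kᗮ) (hv0 : v ≠ 0) {z : 𝕜} (hz : ‖z‖ = 1) :
    ∃ d : H ≃ₗᵢ[𝕜] H, @IsDiffuse _ _ (sot 𝕜 H) d ∧ d v = z • v ∧ ∀ f ∈ K, d f = f := by
  have hK : ¬ FiniteDimensional 𝕜 Kᗮ := fun h => hH (by
    have h1 : FiniteDimensional 𝕜 (K ⊔ Kᗮ : Submodule 𝕜 H) := inferInstance
    rw [Submodule.sup_orthogonal_of_hasOrthogonalProjection] at h1
    exact Submodule.topEquiv.finiteDimensional)
  have : Fact ((2 : ENNReal) ≠ ⊤) := ⟨by norm_num⟩
  obtain ⟨M, hM⟩ := exists_mul (𝕜 := 𝕜)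
  let a : Lp 𝕜 2 (volume : Measure ℝ) :=
    indicatorConstLp 2 (measurableSet_Ico (a := (0 : ℝ)) (b := 1)) (by simp) 1
  have ha : ‖a‖ = 1 := by
    rw [norm_indicatorConstLp (by norm_num) (by norm_num)]
    simp
  have hn : ((‖v‖ : ℝ) : 𝕜) ≠ 0 := by simpa using hv0
  obtain ⟨J0, hJ0⟩ := exists_emb (𝕜 := 𝕜) hK ha (v := ⟨((‖v‖ : ℝ) : 𝕜)⁻¹ • v, Kᗮ.smul_mem _ hv⟩)
    (norm_smul_inv_norm hv0)
  let J : Lp 𝕜 2 (volume : Measure ℝ) →L[𝕜] H :=
    (Kᗮ.subtypeₗᵢ.comp J0).toContinuousLinearMap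
  have hJ : ∀ f, ‖J f‖ = ‖f‖ := (Kᗮ.subtypeₗᵢ.comp J0).norm_map
  have hJJ : ∀ f, J.adjoint (J f) = f := fun f =>
    congrArg (fun A => A f) (J.norm_map_iff_adjoint_comp_self.1 hJ)
  have hJa : J a = ((‖v‖ : ℝ) : 𝕜)⁻¹ • v := congrArg Subtype.val hJ0
  obtain ⟨d, hd, hd'⟩ := diffuse_of_proj (fun S => J ∘L M S ∘L J.adjoint) (by
      intro S T hS hT
      ext x
      simp only [mul_apply_eq_comp, ContinuousLinearMap.comp_apply, hJJ]
      congr 1
      ext1
      filter_upwards [hM S hS (M T (J.adjoint x)), hM T hT (J.adjoint x),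
        hM _ (hS.inter hT) (J.adjoint x)] with y h1 h2 h3
      rw [h1, h3]
      by_cases h4 : y ∈ S <;> by_cases h5 : y ∈ T <;> simp [h4, h5, h2])
    (by
      intro S hS
      have h1 : (M S).adjoint = M S := by
        refine ((ContinuousLinearMap.eq_adjoint_iff _ _).2 fun f g => ?_).symm
        rw [L2.inner_def, L2.inner_def]
        refine integral_congr_ae ?_
        filter_upwards [hM S hS f, hM S hS g] with y h1 h2
        rw [h1, h2]
        by_cases h4 : y ∈ S <;> simp [h4]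
      rw [ContinuousLinearMap.star_eq_adjoint, ContinuousLinearMap.adjoint_comp,
        ContinuousLinearMap.adjoint_comp, ContinuousLinearMap.adjoint_adjoint, h1,
        ContinuousLinearMap.comp_assoc])
    (by
      intro S T hS hT hd
      ext x
      simp only [add_apply, ContinuousLinearMap.comp_apply]
      rw [← map_add]
      congr 1
      ext1
      filter_upwards [hM S hS (J.adjoint x), hM T hT (J.adjoint x),
        hM _ (hS.union hT) (J.adjoint x), Lp.coeFn_add (M S (J.adjoint x)) (M T (J.adjoint x))]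
        with y h1 h2 h3 h4
      rw [h3, h4, Pi.add_apply, h1, h2, indicator_union_of_disjoint hd])
    (by
      intro x ε hε
      obtain ⟨δ, hδ, h⟩ := (Lp.memLp (J.adjoint x)).eLpNorm_indicator_le (by norm_num)
        (by norm_num) hε
      refine ⟨δ, hδ, fun S hS hv => ?_⟩
      simp only [ContinuousLinearMap.comp_apply]
      rw [hJ, Lp.norm_def, eLpNorm_congr_ae (hM S hS _)]
      exact ENNReal.toReal_le_of_le_ofReal hε.le (h S hS hv)) hz
  refine ⟨d, hd, ?_, fun f hf => ?_⟩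
  · have h1 : v = ((‖v‖ : ℝ) : 𝕜) • J a := by rw [hJa, smul_inv_smul₀ hn]
    have h2 : M (Ico 0 1) a = a := by
      ext1
      filter_upwards [hM _ measurableSet_Ico a, indicatorConstLp_coeFn (p := 2)
        (hs := measurableSet_Ico (a := (0 : ℝ)) (b := 1)) (μ := volume) (hμs := by simp)
        (c := (1 : 𝕜))] with y h1 h2
      rw [h1]
      by_cases h4 : y ∈ Ico (0 : ℝ) 1
      · rw [indicator_of_mem h4]
      · rw [indicator_of_notMem h4, h2, indicator_of_notMem h4]
    have h3 : (J ∘L M (Ico 0 1) ∘L J.adjoint) v = v := by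
      conv_lhs => rw [h1]
      simp only [map_smul, ContinuousLinearMap.comp_apply, hJJ, h2]
      exact h1.symm
    rw [hd', h3, sub_smul, one_smul, add_sub_cancel]
  · have h1 : J.adjoint f = 0 := by
      refine ext_inner_right 𝕜 fun g => ?_
      rw [ContinuousLinearMap.adjoint_inner_left, inner_zero_left]
      exact Submodule.inner_right_of_mem_orthogonal hf (J0 g).2
    rw [hd']
    simp [h1]

lemma exists_match (hH : ¬ FiniteDimensional 𝕜 H) (u : H ≃ₗᵢ[𝕜] H) (F : Finset H) :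
    ∃ g ∈ Subgroup.closure {s : H ≃ₗᵢ[𝕜] H | @IsDiffuse _ _ (sot 𝕜 H) s}, ∀ x ∈ F, g x = u x := by
  classical
  induction F using Finset.induction_on with
  | empty => exact ⟨1, one_mem _, by simp⟩
  | insert x F _ ih =>
    obtain ⟨g, hg, hF⟩ := ih
    by_cases hab : g x = u x
    · exact ⟨g, hg, by simpa [hab] using hF⟩
    set v := g x - u x with hv
    have hv0 : v ≠ 0 := sub_ne_zero.2 hab
    set c := ⟪v, g x⟫_𝕜 with hc
    have hN : ⟪v, v⟫_𝕜 = c + (starRingEnd 𝕜) c := by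
      rw [hc, inner_conj_symm, hv]
      simp only [inner_sub_left, inner_sub_right, LinearIsometryEquiv.inner_map_map]
      ring
    have hN0 : c + (starRingEnd 𝕜) c ≠ 0 := by
      rw [← hN]
      exact inner_self_ne_zero.2 hv0
    have hc0 : c ≠ 0 := fun h => hN0 (by simp [h])
    let y := g x - (c / (c + (starRingEnd 𝕜) c)) • v
    let K := Submodule.span 𝕜 (insert y (u '' (F : Set H)))
    have : FiniteDimensional 𝕜 K :=
      FiniteDimensional.span_of_finite 𝕜 ((F.finite_toSet.image _).insert _)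
    have hvK : v ∈ Kᗮ := by
      rw [← Submodule.span_singleton_le_iff_mem, ← Submodule.isOrtho_iff_le,
        Submodule.isOrtho_span]
      rintro _ rfl w (rfl | ⟨f, hf, rfl⟩)
      · simp only [y, inner_sub_right, inner_smul_right, hN, ← hc]
        field_simp
        ring
      · rw [hv, inner_sub_left, u.inner_map_map, ← hF f hf, g.inner_map_map, sub_self]
    obtain ⟨d, hd, h1, h2⟩ := diffuse_rot hH K hvK hv0 (z := -((starRingEnd 𝕜) c / c))
      (by simp [hc0])
    refine ⟨d * g, mul_mem (Subgroup.subset_closure hd) hg, fun w hw => ?_⟩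
    rcases Finset.mem_insert.1 hw with rfl | hw
    · have h3 : g w = y + (c / (c + (starRingEnd 𝕜) c)) • v := by simp [y]
      have h4 : u w = g w - v := by simp [hv]
      show d (g w) = u w
      rw [h4]
      conv_lhs => rw [h3]
      rw [map_add, map_smul, h1, h2 y (Submodule.subset_span (mem_insert _ _)), smul_smul]
      simp only [y]
      rw [sub_add, ← sub_smul]
      convert congrArg (fun t => g w - t) (one_smul 𝕜 v)
      field_simp
      ring
    · show d (g w) = u w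
      rw [hF w hw]
      exact h2 _ (Submodule.subset_span (mem_insert_of_mem _ ⟨w, hw, rfl⟩))

end Pool.Agent.MP_9152e2_an.Pos
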