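import Mathlib
import Pool.Agent.MP_9152e2_an.Defs
import Pool.Agent.MP_9152e2_an.Pos.C
import Pool.Agent.MP_9152e2_an.Pos.U

set_option autoImplicit false

open MeasureTheory Filter Topology Set TopologicalSpace unitInterval

namespace Pool.Agent.MP_9152e2_an.Pos

variable {G : Type} [Group G] [TopologicalSpace G]

lemma IsDiffuse.map {A : Type} [Group A] [TopologicalSpace A] {φ : A →* G}
    (hφ : ∀ U ∈ 𝓝 (1 : G), φ ⁻¹' U ∈ 𝓝 (1 : A)) {a : A} (ha : IsDiffuse a) : IsDiffuse (φ a) := by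
  obtain ⟨h, rfl, h1, h2, h3⟩ := ha
  refine ⟨fun n i => φ (h n i), rfl, fun n i => by rw [← map_mul, ← h1],
    fun n i m j => (h2 n i m j).map φ, fun U hU => ?_⟩
  obtain ⟨r, hr, h4⟩ := h3 (φ ⁻¹' U) (hφ U hU)
  refine ⟨r, hr, fun n S hS => ?_⟩
  rw [← image_image φ (h n), ← MonoidHom.map_closure]
  rintro _ ⟨w, hw, rfl⟩
  exact h4 n S hS hw

lemma mem_closure_of [IsTopologicalGroup G] {L : Subgroup G} {s : G}
    (h : ∀ U ∈ 𝓝 (1 : G), ∃ g ∈ L, g * s ∈ U) : s ∈ closure (L : Set G) := by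
  refine mem_closure_iff_nhds.2 fun W hW => ?_
  have hc : ContinuousAt (fun u : G => s * u⁻¹) 1 := by fun_prop
  obtain ⟨g, hg, hu⟩ := h _ (hc.preimage_mem_nhds (t := W) (by simpa using hW))
  exact ⟨g⁻¹, by simpa using hu, L.inv_mem hg⟩

lemma unitary_mem [IsTopologicalGroup G] {s : G} (hs : FromUnitary s) :
    s ∈ closure (Subgroup.closure {s : G | IsDiffuse s} : Set G) := by
  obtain ⟨𝕜, H, _, _, _, _, hH, φ, hφ, u, rfl⟩ := hs
  let _ := sot 𝕜 H
  have h1 : ∀ U ∈ 𝓝 (1 : G), φ ⁻¹' U ∈ 𝓝 (1 : H ≃ₗᵢ[𝕜] H) := fun U hU => by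
    obtain ⟨b, hb, h⟩ := hφ U hU
    exact mem_of_superset hb h
  refine mem_closure_of fun U hU => ?_
  obtain ⟨F, t, ht, hF⟩ := sot_nhds (h1 U hU)
  obtain ⟨g, hg, h⟩ := exists_match hH u F
  refine ⟨φ g⁻¹, (Subgroup.closure_le ((Subgroup.closure {s : G | IsDiffuse s}).comap φ)).2
    (fun a ha => Subgroup.subset_closure (IsDiffuse.map h1 ha)) (inv_mem hg), ?_⟩
  rw [← map_mul]
  refine hF _ fun x hx => ?_
  have h2 : (g⁻¹ * u) x = x := g.symm_apply_eq.2 (h x hx).symm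
  rw [h2]
  exact mem_of_mem_nhds (ht x)

lemma diffuse_of_sys (ψ : ∀ A : Set I, MeasurableSet A → G)
    (h1 : ∀ A B C hA hB hC, C = A ∪ B → Disjoint A B → ψ C hC = ψ A hA * ψ B hB)
    (h2 : ∀ A B hA hB, Commute (ψ A hA) (ψ B hB))
    (h3 : ∀ U ∈ 𝓝 (1 : G), ∃ δ : ℝ, 0 < δ ∧ ∀ D : Set I, MeasurableSet D → volume.real D ≤ δ →
      ∃ L : Subgroup G, (L : Set G) ⊆ U ∧ ∀ A hA, A ⊆ D → ψ A hA ∈ L) :
    IsDiffuse (ψ univ .univ) := by
  let p : I → ℝ := fun x => (x : ℝ) * (1 / 2)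
  have hp : Measurable p := measurable_subtype_coe.mul_const _
  let J : ℕ → ℕ → Set I := fun n i => p ⁻¹' dy n i
  have hJ : ∀ n i, MeasurableSet (J n i) := fun n i => hp (dy_meas n i)
  have h0 : J 0 0 = univ := by
    refine eq_univ_of_forall fun x => ?_
    show p x ∈ dy 0 0
    rw [dy_zero]
    exact ⟨by simp only [p]; linarith [x.2.1], by simp only [p]; linarith [x.2.2]⟩
  refine ⟨fun n i => ψ (J n i) (hJ n i), by simp only [h0], fun n i => h1 _ _ _ _ _ _ ?_ ?_,
    fun n i m j => h2 _ _ _ _, fun U hU => ?_⟩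
  · simp only [J]
    rw [← preimage_union, ← dy_union]
  · exact (dy_disj n i).preimage p
  · obtain ⟨δ, hδ, h4⟩ := h3 U hU
    refine ⟨δ / 2, half_pos hδ, fun n S hS => ?_⟩
    obtain ⟨L, hL, h5⟩ := h4 (⋃ i ∈ S, J n i) (S.measurableSet_biUnion fun i _ => hJ n i) (by
      refine ENNReal.toReal_le_of_le_ofReal hδ.le ?_
      rw [unitInterval.volume_apply]
      have e : Subtype.val '' (⋃ i ∈ S, J n i) ⊆ (· * (1 / 2 : ℝ)) ⁻¹' ⋃ i ∈ S, dy n i := by
        rintro _ ⟨x, hx, rfl⟩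
        obtain ⟨i, hi, hx⟩ := mem_iUnion₂.1 hx
        exact mem_iUnion₂.2 ⟨i, hi, hx⟩
      refine (measure_mono e).trans ?_
      rw [Real.volume_preimage_mul_right (by norm_num)]
      refine (mul_le_mul_right (dy_vol n S hS) _).trans ?_
      rw [← ENNReal.ofReal_mul (abs_nonneg _)]
      refine ENNReal.ofReal_le_ofReal (le_of_eq ?_)
      norm_num
      ring)
    refine subset_trans ((Subgroup.closure_le L).2 ?_) hL
    rintro _ ⟨i, hi, rfl⟩
    exact h5 _ _ (Finset.subset_set_biUnion_of_mem (f := J n) hi)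

lemma l0_mem [IsTopologicalGroup G] {s : G} (hs : FromL0 s) :
    s ∈ closure (Subgroup.closure {s : G | IsDiffuse s} : Set G) := by
  classical
  obtain ⟨K, _, _, _, _, _, _, Λ, hΛ, φ, hφ0, f, rfl⟩ := hs
  have hφ : ∀ U ∈ 𝓝 (1 : G), ∃ V ∈ 𝓝 (1 : K), ∃ δ : ℝ, 0 < δ ∧
      ∀ f : Λ, volume.real {x | f.1 x ∉ V} < δ → φ f ∈ U := fun U hU => by
    obtain ⟨_, ⟨V, hV, δ, hδ, rfl⟩, h⟩ := hφ0 U hU
    exact ⟨V, hV, δ, hδ, h⟩
  let e : K → ∀ A : Set I, MeasurableSet A → Λ := fun k A hA =>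
    ⟨A.mulIndicator fun _ => k, (hΛ _).2 (Measurable.ite hA measurable_const measurable_const)⟩
  have hd : ∀ k A hA, IsDiffuse (φ (e k A hA)) := by
    intro k A hA
    have := diffuse_of_sys (fun B hB => φ (e k (B ∩ A) (hB.inter hA))) (by
      rintro B C _ hB hC hD rfl hdis
      rw [← map_mul]
      refine congrArg φ (Subtype.ext (funext fun x => ?_))
      have := hdis.notMem_of_mem_left (a := x)
      by_cases h1 : x ∈ B <;> by_cases h2 : x ∈ C <;> by_cases h3 : x ∈ A <;> simp_all [e])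
      (by
        intro B C hB hC
        refine Commute.map (Subtype.ext (funext fun x => ?_)) φ
        by_cases h1 : x ∈ B <;> by_cases h2 : x ∈ C <;> by_cases h3 : x ∈ A <;> simp_all [e])
      (by
        intro U hU
        obtain ⟨V, hV, δ, hδ, h⟩ := hφ U hU
        refine ⟨δ / 2, half_pos hδ, fun D hD hv => ?_⟩
        let L : Subgroup Λ :=
          { carrier := {g | ∀ x, x ∉ D → g.1 x = 1}
            mul_mem' := fun ha hb x hx => by simp [ha x hx, hb x hx]
            one_mem' := fun _ _ => rfl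
            inv_mem' := fun ha x hx => by simp [ha x hx] }
        refine ⟨L.map φ, ?_, fun B hB hBD => ⟨_, fun x hx => ?_, rfl⟩⟩
        · rintro _ ⟨g, hg, rfl⟩
          refine h g (lt_of_le_of_lt (measureReal_mono fun x hx => ?_) (hv.trans_lt
            (half_lt_self hδ)))
          by_contra hxD
          exact hx (hg x hxD ▸ mem_of_mem_nhds hV)
        · exact mulIndicator_of_notMem (s := B ∩ A) (fun h => hx (hBD h.1)) fun _ => k)
    simpa using this
  refine mem_closure_of fun U hU => ?_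
  obtain ⟨V, hV, δ, hδ, h⟩ := hφ U hU
  have hf : Measurable f.1 := (hΛ _).1 f.2
  let d := denseSeq K
  let W : ℕ → Set I := fun j => f.1 ⁻¹' ((fun y => (d j)⁻¹ * y) ⁻¹' interior V)
  have hW : ∀ j, MeasurableSet (W j) := fun j =>
    hf (isOpen_interior.preimage (by fun_prop)).measurableSet
  have hcov : ∀ x, ∃ j, x ∈ W j := fun x =>
    (denseRange_denseSeq K).exists_mem_open (s := (fun y => y⁻¹ * f.1 x) ⁻¹' interior V)
      (isOpen_interior.preimage (by fun_prop))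
      ⟨f.1 x, by simpa using mem_interior_iff_mem_nhds.2 hV⟩
  have key : ∀ m, ∃ g : Λ, φ g ∈ Subgroup.closure {s : G | IsDiffuse s} ∧
      (∀ x, x ∈ accumulate W m → (g * f).1 x ∈ interior V) ∧
      ∀ x, x ∉ accumulate W m → g.1 x = 1 := by
    have step : ∀ (j : ℕ) (B : Set I) (g : Λ), MeasurableSet B →
        φ g ∈ Subgroup.closure {s : G | IsDiffuse s} → (∀ x, x ∈ B → (g * f).1 x ∈ interior V) →
        (∀ x, x ∉ B → g.1 x = 1) → ∃ g : Λ, φ g ∈ Subgroup.closure {s : G | IsDiffuse s} ∧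
        (∀ x, x ∈ B ∪ W j → (g * f).1 x ∈ interior V) ∧ ∀ x, x ∉ B ∪ W j → g.1 x = 1 := by
      intro j B g hB h1 h2 h3
      refine ⟨e (d j)⁻¹ _ ((hW j).diff hB) * g, ?_, fun x hx => ?_, fun x hx => ?_⟩
      · rw [map_mul]
        exact mul_mem (Subgroup.subset_closure (hd _ _ ((hW j).diff hB))) h1
      · by_cases hxB : x ∈ B
        · simpa [e, hxB] using h2 x hxB
        · have h4 : x ∈ W j := hx.resolve_left hxB
          have h5 : (d j)⁻¹ * f.1 x ∈ interior V := h4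
          simpa [e, hxB, h4, h3 x hxB] using h5
      · have h4 : x ∉ B := fun h => hx (Or.inl h)
        have h5 : x ∉ W j := fun h => hx (Or.inr h)
        simp [e, h5, h3 x h4]
    intro m
    induction m with
    | zero => simpa using step 0 ∅ 1 .empty (by simp) (by simp) (by simp)
    | succ m ih =>
      obtain ⟨g, h1, h2, h3⟩ := ih
      rw [accumulate_succ]
      exact step _ _ g (MeasurableSet.biUnion (to_countable _) fun j _ => hW j) h1 h2 h3
  have ht : Tendsto (fun m => volume (accumulate W m)ᶜ) atTop (𝓝 0) := by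
    have := tendsto_measure_iInter_atTop (μ := (volume : Measure I))
      (s := fun m => (accumulate W m)ᶜ)
      (fun m => (MeasurableSet.biUnion (to_countable _) fun j _ => hW j).compl.nullMeasurableSet)
      (fun a b hab => compl_subset_compl.2 (monotone_accumulate hab)) ⟨0, measure_ne_top _ _⟩
    rw [← compl_iUnion, iUnion_accumulate, eq_univ_of_forall fun x => mem_iUnion.2 (hcov x),
      compl_univ, measure_empty] at this
    exact this
  obtain ⟨m, hm⟩ := (ht.eventually (gt_mem_nhds (ENNReal.ofReal_pos.2 hδ))).exists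
  obtain ⟨g, h1, h2, -⟩ := key m
  refine ⟨φ g, h1, ?_⟩
  rw [← map_mul]
  refine h _ (lt_of_le_of_lt (measureReal_mono (s₂ := (accumulate W m)ᶜ) fun x hx hx' => ?_) ?_)
  · exact hx (interior_subset (h2 x hx'))
  · exact ENNReal.toReal_lt_of_lt_ofReal hm

section Swap

variable {Y : Type}

open scoped Classical in
/-- The map exchanging `D` and its image under `T`. -/
noncomputable def sw (T : Equiv.Perm Y) (D : Set Y) (x : Y) : Y :=
  if x ∈ D then T x else if T⁻¹ x ∈ D then T⁻¹ x else x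

variable {T : Equiv.Perm Y} {B D E : Set Y}

open scoped Classical in
lemma sw_a (hB : ∀ x ∈ B, T x ∉ B) (hD : D ⊆ B) {x : Y} (hx : x ∈ B) :
    sw T D x = if x ∈ D then T x else x := by
  have : T⁻¹ x ∉ D := fun h => hB _ (hD h) (by simpa using hx)
  rw [sw, if_neg this]

open scoped Classical in
lemma sw_b (hB : ∀ x ∈ B, T x ∉ B) (hD : D ⊆ B) {x : Y} (hx : x ∈ B) :
    sw T D (T x) = if x ∈ D then x else T x := by
  have : T x ∉ D := fun h => hB _ hx (hD h)
  simp [sw, this]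

lemma sw_c {x : Y} (h1 : x ∉ D) (h2 : T⁻¹ x ∉ D) : sw T D x = x := by
  rw [sw, if_neg h1, if_neg h2]

lemma sw_sw (hB : ∀ x ∈ B, T x ∉ B) (hD : D ⊆ B) (hE : E ⊆ B) (x : Y) :
    sw T D (sw T E x) = sw T (symmDiff D E) x := by
  have hS : symmDiff D E ⊆ B := symmDiff_subset_union.trans (union_subset hD hE)
  by_cases h1 : x ∈ B
  · by_cases h2 : x ∈ D <;> by_cases h3 : x ∈ E <;>
      simp [sw_a hB hS h1, sw_a hB hD h1, sw_a hB hE h1, sw_b hB hD h1, h2, h3, mem_symmDiff]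
  by_cases h4 : T⁻¹ x ∈ B
  · obtain ⟨y, rfl⟩ := T.surjective x
    have h1 : y ∈ B := by simpa using h4
    by_cases h2 : y ∈ D <;> by_cases h3 : y ∈ E <;>
      simp [sw_b hB hS h1, sw_a hB hD h1, sw_b hB hE h1, sw_b hB hD h1, h2, h3, mem_symmDiff]
  · rw [sw_c (fun h => h1 (hE h)) fun h => h4 (hE h), sw_c (fun h => h1 (hD h)) fun h => h4 (hD h),
      sw_c (fun h => h1 (hS h)) fun h => h4 (hS h)]

/-- The involution exchanging `D ∩ B` and its image under `T`. -/
noncomputable def swp (hB : ∀ x ∈ B, T x ∉ B) (D : Set Y) : Equiv.Perm Y :=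
  Function.Involutive.toPerm (sw T (D ∩ B)) fun x => by
    rw [sw_sw hB inter_subset_right inter_subset_right, symmDiff_self]
    exact sw_c (notMem_empty _) (notMem_empty _)

lemma swp_mul (hB : ∀ x ∈ B, T x ∉ B) (D E : Set Y) :
    swp hB D * swp hB E = swp hB (symmDiff D E) := by
  ext x
  show sw T _ (sw T _ x) = sw T _ x
  rw [sw_sw hB inter_subset_right inter_subset_right, inter_symmDiff_distrib_right]

lemma three [MeasurableSpace Y] [MeasurableSpace.CountablySeparated Y] (h1 : Measurable T)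
    (h2 : Measurable (T⁻¹ : Equiv.Perm Y)) : ∃ B : Set Y, MeasurableSet B ∧ (∀ x ∈ B, T x ∉ B) ∧
      {x | T x ≠ x} ⊆ B ∪ T ⁻¹' B ∪ (T⁻¹ : Equiv.Perm Y) ⁻¹' B := by
  obtain ⟨f, hf, hi⟩ := MeasurableSpace.measurable_injection_nat_bool_of_countablySeparated Y
  obtain ⟨q, hq⟩ := exists_surjective_nat (ℕ × Bool)
  let A : ℕ → Set Y := fun j => {x | f x (q j).1 = (q j).2}
  have hA : ∀ j, MeasurableSet (A j) := fun j =>
    ((measurable_pi_apply (q j).1).comp hf) (measurableSet_singleton (q j).2)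
  let C : ℕ → Set Y := fun j => Nat.rec ∅
    (fun j c => c ∪ (A j \ T ⁻¹' A j) \ (T ⁻¹' c ∪ (T⁻¹ : Equiv.Perm Y) ⁻¹' c)) j
  have hs : ∀ j, C (j + 1) =
    C j ∪ (A j \ T ⁻¹' A j) \ (T ⁻¹' C j ∪ (T⁻¹ : Equiv.Perm Y) ⁻¹' C j) := fun _ => rfl
  have hm : ∀ j, MeasurableSet (C j) := by
    intro j
    induction j with
    | zero => exact .empty
    | succ j ih => exact ih.union (((hA j).diff (h1 (hA j))).diff ((h1 ih).union (h2 ih)))
  have hd : ∀ j, ∀ x ∈ C j, T x ∉ C j := by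
    intro j
    induction j with
    | zero => exact fun x hx => absurd hx (notMem_empty _)
    | succ j ih =>
      rw [hs]
      rintro x (hx | hx) (hy | hy)
      · exact ih x hx hy
      · exact hy.2 (Or.inr (by simpa using hx))
      · exact hx.2 (Or.inl hy)
      · exact hx.1.2 hy.1.1
  have hmono : Monotone C := monotone_nat_of_le_succ fun j => by
    rw [hs]
    exact subset_union_left
  refine ⟨⋃ j, C j, .iUnion hm, fun x hx hy => ?_, fun x hx => ?_⟩
  · obtain ⟨i, hi⟩ := mem_iUnion.1 hx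
    obtain ⟨j, hj⟩ := mem_iUnion.1 hy
    exact hd (max i j) x (hmono (le_max_left i j) hi) (hmono (le_max_right i j) hj)
  · obtain ⟨n, hn⟩ := Function.ne_iff.1 fun h => hx (hi h)
    obtain ⟨j, hj⟩ := hq (n, f x n)
    by_cases h3 : x ∈ T ⁻¹' C j ∪ (T⁻¹ : Equiv.Perm Y) ⁻¹' C j
    · rcases h3 with h3 | h3
      · exact Or.inl (Or.inr (mem_iUnion.2 ⟨j, h3⟩))
      · exact Or.inr (mem_iUnion.2 ⟨j, h3⟩)
    · refine Or.inl (Or.inl (mem_iUnion.2 ⟨j + 1, Or.inr ⟨⟨?_, ?_⟩, h3⟩⟩))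
      · simp [A, hj]
      · simpa [A, hj] using hn

end Swap

lemma full_mem [IsTopologicalGroup G] {s : G} (hs : FromFull s) :
    s ∈ closure (Subgroup.closure {s : G | IsDiffuse s} : Set G) := by
  classical
  obtain ⟨Γ, hq, hΓ, φ, hφ0, T0, rfl⟩ := hs
  have hφ : ∀ U ∈ 𝓝 (1 : G), ∃ δ : ℝ, 0 < δ ∧
      ∀ T : Γ, volume.real {x | T.1 x ≠ x} < δ → φ T ∈ U := fun U hU => by
    obtain ⟨_, ⟨δ, hδ, rfl⟩, h⟩ := hφ0 U hU
    exact ⟨δ, hδ, h⟩
  have hsw : ∀ (T : Γ) (B : Set I) (hB : ∀ x ∈ B, T.1 x ∉ B), MeasurableSet B →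
      ∀ D, MeasurableSet D → swp hB D ∈ Γ := by
    intro T B hB hBm D hD
    have h1 := (hq _ T.2).measurable
    have h2 := (hq _ (Γ.inv_mem T.2)).measurable
    refine hΓ T.1 T.2 _ (Measurable.ite (hD.inter hBm) h1
      (Measurable.ite (h2 (hD.inter hBm)) h2 measurable_id)) fun x => ?_
    show sw _ _ x = x ∨ sw _ _ x = _ ∨ sw _ _ x = _
    unfold sw
    split_ifs <;> simp
  have hd : ∀ (T : Γ) (B : Set I) (hB : ∀ x ∈ B, T.1 x ∉ B) (hBm : MeasurableSet B),
      IsDiffuse (φ ⟨_, hsw T B hB hBm univ .univ⟩) := by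
    intro T B hB hBm
    refine diffuse_of_sys (fun D hD => φ ⟨_, hsw T B hB hBm D hD⟩) ?_ ?_ fun U hU => ?_
    · rintro D E _ hD hE _ rfl hdis
      rw [← map_mul]
      refine congrArg φ (Subtype.ext ?_)
      show _ = swp hB D * swp hB E
      rw [swp_mul, hdis.symmDiff_eq_sup]
      rfl
    · intro D E hD hE
      refine Commute.map (Subtype.ext ?_) φ
      show swp hB D * swp hB E = swp hB E * swp hB D
      rw [swp_mul, swp_mul, symmDiff_comm]
    · obtain ⟨δ, hδ, h⟩ := hφ U hU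
      have h2 := hq _ (Γ.inv_mem T.2)
      obtain ⟨ρ, hρ, h3⟩ := exists_pos_setLIntegral_lt_of_measure_lt
        (Measure.lintegral_rnDeriv_lt_top (volume.map (T.1⁻¹ : Equiv.Perm I)) volume).ne
        (ENNReal.ofReal_pos.2 (half_pos hδ)).ne'
      obtain ⟨r, hr0, hr1, hr2⟩ := ENNReal.lt_iff_exists_real_btwn.1 hρ
      refine ⟨min r (δ / 2), lt_min (ENNReal.ofReal_pos.1 hr1) (half_pos hδ), fun D hD hv => ?_⟩
      let L : Subgroup Γ :=
        { carrier := {g | ∀ x, x ∉ D ∪ (T.1⁻¹ : Equiv.Perm I) ⁻¹' D → g.1 x = x}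
          mul_mem' := fun ha hb x hx => by simp [ha x hx, hb x hx]
          one_mem' := fun _ _ => rfl
          inv_mem' := fun ha x hx => Equiv.Perm.inv_eq_iff_eq.2 (ha x hx).symm }
      refine ⟨L.map φ, ?_, fun A hA hAD => ⟨_, fun x hx => ?_, rfl⟩⟩
      · rintro _ ⟨g, hg, rfl⟩
        refine h g (lt_of_le_of_lt (measureReal_mono (s₂ := D ∪ (T.1⁻¹ : Equiv.Perm I) ⁻¹' D)
          fun x hx => not_not.1 fun hx' => hx (hg x hx')) ?_)
        have h4 := h3 D (lt_of_le_of_lt ((ENNReal.le_ofReal_iff_toReal_le (measure_ne_top _ _)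
          hr0).2 (hv.trans (min_le_left _ _))) hr2)
        rw [Measure.setLIntegral_rnDeriv h2.absolutelyContinuous,
          Measure.map_apply h2.measurable hD] at h4
        have h5 : volume.real ((T.1⁻¹ : Equiv.Perm I) ⁻¹' D) < δ / 2 :=
          ENNReal.toReal_lt_of_lt_ofReal h4
        linarith [measureReal_union_le (μ := volume) D ((T.1⁻¹ : Equiv.Perm I) ⁻¹' D),
          hv.trans (min_le_right _ _)]
      · exact sw_c (fun h => hx (Or.inl (hAD h.1))) fun h => hx (Or.inr (hAD h.1))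
  have step : ∀ T : Γ, ∃ ρ : Γ, IsDiffuse (φ ρ) ∧
      volume.real {x | (ρ * T).1 x ≠ x} ≤ 2 / 3 * volume.real {x | T.1 x ≠ x} := by
    intro T
    have h1 := (hq _ T.2).measurable
    have h2 := (hq _ (Γ.inv_mem T.2)).measurable
    obtain ⟨B, hBm, hB, hv⟩ : ∃ B : Set I, MeasurableSet B ∧ (∀ x ∈ B, T.1 x ∉ B) ∧
        volume.real {x | T.1 x ≠ x} ≤ 3 * volume.real B := by
      obtain ⟨B, hBm, hB, hs⟩ := three h1 h2
      have h3 := (measureReal_mono (μ := volume) hs).trans ((measureReal_union_le _ _).trans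
        (add_le_add_left (measureReal_union_le _ _) _))
      by_contra hn
      push Not at hn
      have h4 := hn B hBm hB
      have h5 := hn _ (h1 hBm) fun x hx => hB _ hx
      have h6 := hn _ (h2 hBm) fun x hx hy => hB _ hx (by simpa using hy)
      linarith
    refine ⟨_, hd T B hB hBm, ?_⟩
    have hBs : B ⊆ {x | T.1 x ≠ x} := fun x hx h => hB x hx (by rw [h]; exact hx)
    have h3 : {x | (⟨_, hsw T B hB hBm univ .univ⟩ * T : Γ).1 x ≠ x} ⊆ {x | T.1 x ≠ x} \ B := by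
      intro x hx
      have hx' : sw T.1 (univ ∩ B) (T.1 x) ≠ x := hx
      rw [univ_inter] at hx'
      refine ⟨fun h => hx' ?_, fun h => hx' ?_⟩
      · have h4 : x ∉ B := fun h5 => hBs h5 h
        rw [h]
        exact sw_c h4 (by rwa [Equiv.Perm.inv_eq_iff_eq.2 h.symm])
      · rw [sw_b hB subset_rfl h, if_pos h]
    have h4 := measureReal_mono (μ := volume) h3
    rw [measureReal_sdiff hBs hBm] at h4
    linarith
  have key : ∀ k : ℕ, ∃ ρ : Γ, φ ρ ∈ Subgroup.closure {s : G | IsDiffuse s} ∧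
      volume.real {x | (ρ * T0).1 x ≠ x} ≤ (2 / 3) ^ k := by
    intro k
    induction k with
    | zero => exact ⟨1, by simp, by simp⟩
    | succ k ih =>
      obtain ⟨ρ, h1, h2⟩ := ih
      obtain ⟨ρ', h3, h4⟩ := step (ρ * T0)
      refine ⟨ρ' * ρ, ?_, ?_⟩
      · rw [map_mul]
        exact mul_mem (Subgroup.subset_closure h3) h1
      · rw [mul_assoc, pow_succ]
        linarith
  refine mem_closure_of fun U hU => ?_
  obtain ⟨δ, hδ, h⟩ := hφ U hU
  obtain ⟨k, hk⟩ := exists_pow_lt_of_lt_one hδ (show (2 / 3 : ℝ) < 1 by norm_num)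
  obtain ⟨ρ, h1, h2⟩ := key k
  exact ⟨φ ρ, h1, by rw [← map_mul]; exact h _ (h2.trans_lt hk)⟩

theorem closure_sub [IsTopologicalGroup G] : closure (Subgroup.closure
    {s : G | IsDiffuse s ∨ FromUnitary s ∨ FromFull s ∨ FromL0 s} : Set G) ⊆
    closure (Subgroup.closure {s : G | IsDiffuse s} : Set G) := by
  refine closure_minimal ?_ isClosed_closure
  refine (Subgroup.closure_le (Subgroup.closure {s : G | IsDiffuse s}).topologicalClosure).2 ?_
  rintro s (h | h | h | h)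
  exacts [subset_closure (Subgroup.subset_closure h), unitary_mem h, full_mem h, l0_mem h]

end Pool.Agent.MP_9152e2_an.Pos
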